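import Pool.Agent.H83.TK.SubD
import Pool.Agent.H83.TU.Cen
import Pool.Agent.H54.RV.B10

/-!
# THEOREM K (MP_e49dc9_ag), chapter T2: frames

[H24 TK Frm]  `Fr H r t`: `t : Fin r → K` are sections of `H` without common zeros, and the sets where they do not
vanish are affine.

* `exists_fr`: a multiple of an ample divisor has a frame.  Proof: choose `n x ≥ 1`, `s x` for all points `x`
  (`Ample`); finitely many of the open sets `nz H (n x) (s x)` cover (`IsVar.comp`, `IsVar.op`); `m` = the product of the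
  `n x` over the finite set; `t = s x ^ (m / n x)`; `nz H m (s x ^ (m / n x)) = nz H (n x) (s x)` by `un_pow_iff`; index the
  finite set by `Fin r` (`Finset.equivFin`).  `Sec (H ^ m) 1 s ↔ Sec H m s` by `pow_eq`, `pow_one`.
* `Fr.pow`: powers of the sections.
* `Fr.ample`: `H` is ample.
* `Fr.res`: restriction to the closed subvariety `subM hX z` (`resS`, `nz_res`).
* `Fr.exists_ne`: some `t j` is not zero.
* `sec_pow_iff`, `secL_pow`: `Sec (D ^ n) 1 s ↔ Sec D n s`.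
* `exists_sec`: for every divisor `W` there are `m` and a section `s ≠ 0` of `H ^ m * W` (`amp_pt`, or `ext_sec` for
  `t = (W.eq x)⁻¹ * c ^ q`).
-/

set_option autoImplicit false

namespace Pool.Agent.H24.TK

open Pool.Agent.H54.RV Pool.Agent.H83.TU Pool.Agent.H83.TK

variable {k K : Type} [Field k] [Field K] [Algebra k K] {X : Mod k K}

/-- finitely many sections of `H` without common zeros; the sets where they do not vanish are affine -/
structure Fr (H : Cart X) (r : ℕ) (t : Fin r → K) : Prop where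
  sec : ∀ j, Sec H 1 (t j)
  aff : ∀ j, X.aff (nz H 1 (t j))
  cov : ∀ x, ∃ j, x ∈ nz H 1 (t j)

theorem sec_pow_iff (D : Cart X) (n : ℕ) (s : K) : Sec (D ^ n) 1 s ↔ Sec D n s := by
  unfold Sec
  simp only [pow_eq, pow_one]

theorem nz_pow_eq (D : Cart X) (n : ℕ) (s : K) : nz (D ^ n) 1 s = nz D n s := by
  unfold nz
  simp only [pow_eq, pow_one]

theorem secL_pow (D : Cart X) (n : ℕ) : secL (D ^ n) 1 = secL D n := by
  ext s
  exact sec_pow_iff D n s

/-- the product of two sections -/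
theorem sec_mul' (D E : Cart X) (s u : K) (hs : Sec D 1 s) (hu : Sec E 1 u) : Sec (D * E) 1 (s * u) := by
  intro x
  have h1 := (X.O x).mul_mem (hs x) (hu x)
  rw [pow_one] at h1 ⊢
  rw [pow_one] at h1
  rw [mul_eq]
  have h2 : s * u * (D.eq x * E.eq x) = s * D.eq x * (u * E.eq x) := by ring
  rw [h2]
  exact h1

private theorem frm_sec (D : Cart X) (n e : ℕ) (s : K) (hs : Sec D n s) : Sec (D ^ (n * e)) 1 (s ^ e) := by
  intro x
  rw [pow_one, pow_eq, pow_mul, ← mul_pow]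
  exact (X.O x).pow_mem (hs x) e

private theorem frm_nz (D : Cart X) (n e : ℕ) (s : K) (hs : Sec D n s) (he : 1 ≤ e) :
    nz (D ^ (n * e)) 1 (s ^ e) = nz D n s := by
  ext x
  change Un (X.O x) (s ^ e * (D ^ (n * e)).eq x ^ 1) ↔ Un (X.O x) (s * D.eq x ^ n)
  rw [pow_one, pow_eq, pow_mul, ← mul_pow]
  exact un_pow_iff (hs x) he

theorem exists_fr (hX : IsVar X) (H : Cart X) (hH : Ample H) :
    ∃ m : ℕ, 1 ≤ m ∧ ∃ (r : ℕ) (t : Fin r → K), Fr (H ^ m) r t := by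
  classical
  choose n hn s hs hx haff using hH
  have hcomp := hX.comp
  obtain ⟨T, -, hT⟩ := isCompact_univ.elim_nhds_subcover (fun x => nz H (n x) (s x))
    (fun x _ => (hX.op _ (haff x)).mem_nhds (hx x))
  have he : ∀ x ∈ T, ∏ x ∈ T, n x = n x * ∏ x ∈ T.erase x, n x := fun x h =>
    (Finset.mul_prod_erase T n h).symm
  have hp : ∀ x, 1 ≤ ∏ x ∈ T.erase x, n x := fun x => Finset.one_le_prod' fun y _ => hn y
  refine ⟨∏ x ∈ T, n x, Finset.one_le_prod' fun x _ => hn x, T.card,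
    fun j => s (T.equivFin.symm j).1 ^ ∏ x ∈ T.erase (T.equivFin.symm j).1, n x, ?_, ?_, ?_⟩
  · intro j
    rw [he _ (T.equivFin.symm j).2]
    exact frm_sec H _ _ _ (hs _)
  · intro j
    rw [he _ (T.equivFin.symm j).2, frm_nz H _ _ _ (hs _) (hp _)]
    exact haff _
  · intro x
    obtain ⟨y, hyT, hy⟩ := Set.mem_iUnion₂.1 (hT (Set.mem_univ x))
    refine ⟨T.equivFin ⟨y, hyT⟩, ?_⟩
    rw [he _ (T.equivFin.symm (T.equivFin ⟨y, hyT⟩)).2, frm_nz H _ _ _ (hs _) (hp _), Equiv.symm_apply_apply]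
    exact hy

variable {H : Cart X} {r : ℕ} {t : Fin r → K}

theorem Fr.pow (hF : Fr H r t) (m : ℕ) (hm : 1 ≤ m) : Fr (H ^ m) r (fun j => t j ^ m) := by
  have h1 : H ^ m = H ^ (1 * m) := by rw [one_mul]
  refine ⟨fun j => ?_, fun j => ?_, fun x => ?_⟩
  · rw [h1]
    exact frm_sec H 1 m _ (hF.sec j)
  · rw [h1, frm_nz H 1 m _ (hF.sec j) hm]
    exact hF.aff j
  · obtain ⟨j, hj⟩ := hF.cov x
    refine ⟨j, ?_⟩
    rw [h1, frm_nz H 1 m _ (hF.sec j) hm]
    exact hj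

theorem Fr.ample (hF : Fr H r t) : Ample H := by
  intro x
  obtain ⟨j, hj⟩ := hF.cov x
  exact ⟨1, le_rfl, t j, hF.sec j, hj, hF.aff j⟩

theorem Fr.res (hF : Fr H r t) (hX : IsVar X) (z : X.P) :
    Fr (resD hX z H) r (fun j => X.rs z (t j * H.eq z)) := by
  have h1 : ∀ j, X.rs z (t j * H.eq z) = (resS hX z H 1 ⟨t j, hF.sec j⟩ : X.kap z) := by
    intro j
    rw [resS_coe, pow_one]
  refine ⟨fun j => ?_, fun j => ?_, fun x => ?_⟩
  · rw [h1]
    exact (resS hX z H 1 ⟨t j, hF.sec j⟩).2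
  · rw [h1]
    refine ⟨nz H 1 (t j), hF.aff j, ?_⟩
    ext y
    exact nz_res hX z H 1 ⟨t j, hF.sec j⟩ y
  · obtain ⟨j, hj⟩ := hF.cov x.1
    refine ⟨j, ?_⟩
    rw [h1]
    exact (nz_res hX z H 1 ⟨t j, hF.sec j⟩ x).2 hj

theorem Fr.exists_ne (hF : Fr H r t) (hX : IsVar X) : ∃ j, t j ≠ 0 := by
  obtain ⟨x⟩ := hX.ne
  obtain ⟨j, hj⟩ := hF.cov x
  refine ⟨j, fun h => hj.1 ?_⟩
  rw [h, zero_mul]

theorem exists_sec (hX : IsVar X) (hF : Fr H r t) (W : Cart X) :
    ∃ (m : ℕ) (s : K), s ≠ 0 ∧ Sec (H ^ m * W) 1 s := by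
  obtain ⟨x⟩ := hX.ne
  obtain ⟨n, U, N, -, -, hx, hj⟩ := amp_pt hX H W hF.ample x
  obtain ⟨s, hs, hs2⟩ := hj N le_rfl
  refine ⟨n * N, s, ?_, ?_⟩
  · rw [← hs2] at hx
    intro h
    apply hx.1
    rw [h, zero_mul]
  · rw [pow_mul]
    exact hs

end Pool.Agent.H24.TK
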