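import Pool.Agent.H83.TK.SubD
import Pool.Agent.H54.RV.B3

/-!
# THEOREM K (MP_e49dc9_ag), chapter T2: local lifts

[H24 TK Lft]  `V` affine, `z ∈ V`, `D` a Cartier divisor, `c ∈ κ(z)` a section of `resD hX z D` on the trace of `V`: it is
the restriction of a section of `D` on `V`.  This is `sec_lift` (`H83/TK/SubB.lean`) with a divisor; follow that proof.

`J := {s ∈ sec V | ∃ a, (∀ y ∈ V, a * D.eq y ∈ O y) ∧ rs z (a * D.eq z) = rs z s * c}` is an ideal of `sec V`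
(for `r ∈ sec V`: `r * a`; `rs_mul`, `rs_add`).  If `1 ∈ J` we are done.  Otherwise `J` is contained in a maximal ideal, the
ideal of the nonunits at a point `x ∈ V` (`IsVar.prime`).  Elements `s ∈ sec V` with `rs z s = 0` are in `J` (`a = 0`), so
`z ⤳ x` (`sp_of`).  `c * rs z (D.eq x / D.eq z) = rs z b` with `b ∈ O x` (`subO_iff`), so
`c = rs z (b * (D.eq z / D.eq x))` (`quo_un`, `rs_mul`, `rs_inv`/`rs_div`).
`triv hX D V Set.univ x`: `c₁ ∈ sec V`, a unit at `x`, with `D.eq y / D.eq x` a unit of `O y` at the points `y ∈ V` where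
`c₁` is a unit.  `IsVar.frac`: `s₁ ∈ sec V` a unit at `x` with `b * s₁ ∈ sec V`.  `c₂ := c₁ * s₁`.  At the points `y ∈ V` where
`c₂` is a unit (so `c₁`, `s₁` are units, `un_mul_iff`): `(b / D.eq x) * D.eq y ∈ O y`.  `denc hX D V hV c₂ (b / D.eq x)`: `N` with
`c₂ ^ N * (b / D.eq x) * D.eq y ∈ O y` for all `y ∈ V`.  So `c₂ ^ N ∈ J` with `a = c₂ ^ N * (b / D.eq x)`:
`rs z (a * D.eq z) = rs z (c₂ ^ N) * rs z (b * (D.eq z / D.eq x)) = rs z (c₂ ^ N) * c`.  But `c₂ ^ N` is a unit at `x`: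
contradiction.
-/

set_option autoImplicit false

namespace Pool.Agent.H24.TK

open Pool.Agent.H54.RV Pool.Agent.H83.TU Pool.Agent.H83.TK

variable {k K : Type} [Field k] [Field K] [Algebra k K] {X : Mod k K}

theorem lift_mod (hX : IsVar X) {V : Set X.P} (hV : X.aff V) {z : X.P} (hz : z ∈ V) (D : Cart X) (c : X.kap z)
    (hc : ∀ x : (subM hX z).P, x.1 ∈ V → c * (resD hX z D).eq x ∈ (subM hX z).O x) :
    ∃ a : K, (∀ y ∈ V, a * D.eq y ∈ X.O y) ∧ X.rs z (a * D.eq z) = c := by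
  have hs : ∀ a ∈ X.sec V, ∀ x ∈ V, a ∈ X.O x := fun a ha => (mem_sec V a).1 ha
  let J : Ideal (X.sec V) :=
    { carrier := {s | ∃ a : K, (∀ y ∈ V, a * D.eq y ∈ X.O y) ∧ X.rs z (a * D.eq z) = X.rs z s.1 * c}
      add_mem' := by
        rintro ⟨s, hs1⟩ ⟨t, ht1⟩ ⟨a, ha, h1⟩ ⟨b, hb, h2⟩
        refine ⟨a + b, fun y hy => ?_, ?_⟩
        · rw [add_mul]
          exact add_mem (ha y hy) (hb y hy)
        · change X.rs z ((a + b) * D.eq z) = X.rs z (s + t) * c
          rw [add_mul, rs_add z (ha z hz) (hb z hz), rs_add z (hs s hs1 z hz) (hs t ht1 z hz), add_mul]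
          exact congrArg₂ (· + ·) h1 h2
      zero_mem' := ⟨0, fun y _ => by
        rw [zero_mul]
        exact zero_mem _, by
        change X.rs z (0 * D.eq z) = X.rs z 0 * c
        rw [zero_mul, rs_zero, zero_mul]⟩
      smul_mem' := by
        rintro ⟨r, hr⟩ ⟨s, hs1⟩ ⟨a, ha, h1⟩
        refine ⟨r * a, fun y hy => ?_, ?_⟩
        · rw [mul_assoc]
          exact mul_mem (hs r hr y hy) (ha y hy)
        · change X.rs z (r * a * D.eq z) = X.rs z (r * s) * c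
          rw [mul_assoc, rs_mul z (hs r hr z hz) (ha z hz), rs_mul z (hs r hr z hz) (hs s hs1 z hz), mul_assoc]
          exact congrArg (X.rs z r * ·) h1 }
  by_cases hJ : J = ⊤
  · have h1 : (1 : X.sec V) ∈ J := by rw [hJ]; exact Submodule.mem_top
    obtain ⟨a, ha, h2⟩ := h1
    refine ⟨a, ha, ?_⟩
    rw [h2]
    change X.rs z 1 * c = c
    rw [rs_one, one_mul]
  · exfalso
    obtain ⟨I, hI, hJI⟩ := Ideal.exists_le_maximal J hJ
    obtain ⟨x, hx, h1⟩ := hX.prime V hV ⟨z, hz⟩ I hI.isPrime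
    have hzx : z ⤳ x := by
      refine sp_of hX hV hz hx fun a ha h2 => ?_
      refine (h1 ⟨a, ha⟩).1 (hJI ⟨0, fun y _ => ?_, ?_⟩)
      · rw [zero_mul]
        exact zero_mem _
      · change X.rs z (0 * D.eq z) = X.rs z a * c
        rw [zero_mul, rs_zero, h2, zero_mul]
    obtain ⟨b, hb, h2⟩ := (subO_iff hX hzx _).1 (hc ⟨x, hzx⟩ hx)
    change X.rs z b = c * X.rs z (D.eq x / D.eq z) at h2
    have hq := quo_un D z x hzx
    have hle := hX.spec z x hzx
    have h3 : c = X.rs z (b * (D.eq x / D.eq z)⁻¹) := by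
      rw [rs_mul z (hle hb) hq.2.2, h2, rs_inv z hq, mul_assoc, mul_inv_cancel₀ ((rs_ne z hq.2.1).2 hq), mul_one]
    obtain ⟨c₁, hc1, hc2, hc3⟩ := triv hX D V Set.univ x hV isOpen_univ hx (Set.mem_univ x)
    obtain ⟨s, hs1, hs2, hs3⟩ := hX.frac V x hV hx b hb
    have hcs : ∀ y ∈ V, c₁ * s ∈ X.O y := fun y hy => mul_mem (hc1 y hy) (hs s hs1 y hy)
    have hDx := D.ne x
    have hDz := D.ne z
    obtain ⟨N, hN⟩ := denc hX D V hV (c₁ * s) (b / D.eq x) hcs (by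
      intro y hy hu
      obtain ⟨hu1, hu2⟩ := (un_mul_iff (hc1 y hy) (hs s hs1 y hy)).1 hu
      have hby : b ∈ X.O y := by
        have h4 := hs _ hs3 y hy
        exact (mem_mul_un hu2).1 h4
      have e1 : b / D.eq x * D.eq y = b * (D.eq y / D.eq x) := by
        field_simp
      rw [e1]
      exact mul_mem hby (hc3 y hy hu1).2.2.1)
    have hmem : (c₁ * s) ^ N ∈ X.sec V := by
      rw [mem_sec]
      exact fun y hy => pow_mem (hcs y hy) N
    have hJm : (⟨(c₁ * s) ^ N, hmem⟩ : X.sec V) ∈ J := by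
      refine ⟨(c₁ * s) ^ N * (b / D.eq x), fun y hy => hN N le_rfl y hy, ?_⟩
      change X.rs z ((c₁ * s) ^ N * (b / D.eq x) * D.eq z) = X.rs z ((c₁ * s) ^ N) * c
      have e1 : (c₁ * s) ^ N * (b / D.eq x) * D.eq z = (c₁ * s) ^ N * (b * (D.eq x / D.eq z)⁻¹) := by
        field_simp
      rw [e1, rs_mul z (pow_mem (hcs z hz) N) (mul_mem (hle hb) hq.2.2), ← h3]
    exact (h1 _).1 (hJI hJm) (un_pow (un_mul hc2 hs2) N)

end Pool.Agent.H24.TK
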