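import Pool.Agent.H24.TK.Fin
import Pool.Agent.H24.TK.Lft
import Pool.Agent.H83.TK.SubV

/-!
# THEOREM K (MP_e49dc9_ag), chapter T2: SER, sections of large multiples restrict onto

[H24 TK Ser]  `Fr H r t` a frame on `X`, `z` any point, `Z = subM hX z`, `W` any divisor.

* `lift_pow`: every section `w` of `resD W` has multiples `(t' j) ^ m * w`, `m ≥ m₀`, which are restrictions of sections of
  `W * H ^ m`; here `t' j = rs z (t j * H.eq z)`.  Proof: if `z ∉ nz H 1 (t j)` then `t' j = 0` (`resS_zero`), take `m₀ = 1` and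
  the section `0`.  Otherwise `lift_mod` on `V = nz H 1 (t j)` (affine by `Fr.aff`) for `D = W`: `a` with `a * W.eq y ∈ O y` on `V`
  and `rs z (a * W.eq z) = w`; `ext_sec hX H W 1 (t j) a`: `t j ^ m * a` is a section of `H ^ m * W` for `m ≥ m₀`; its restriction
  is `rs z (t j ^ m * a * (W.eq z * H.eq z ^ m)) = (t' j) ^ m * w` (`rs_mul`, `rs_pow`).
* `ser`: `gen_le` on `Z` (`isVar_sub`, `gen_sub`, `Fr.res`) for `resD W`: `n₁` with
  `L_Z(W + (n + 1) H) = ∑ t' j L_Z(W + n H)` for `n ≥ n₁`.  By induction on `d` every element of `L_Z(W + (n₁ + d) H)` is a sum of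
  elements `(∏ j, t' j ^ α j) * w` with `∑ α = d`, `w ∈ L_Z(W + n₁ H)`.  `L_Z(W + n₁ H)` is finite dimensional (`fd`), so one `m`
  works in `lift_pow` for all its elements (a basis) and all `j`.  For `d > r * m` some `α j ≥ m`, and
  `(∏ j, t' j ^ α j) * w = (∏ .., the rest) * ((t' j) ^ m * w)` is the restriction of (product of the `t`) * (section of
  `W * H ^ (n₁ + m)`).  So `n₀ = n₁ + r * m + 1`.  The restriction maps are linear, so sums are no problem.
  `resD` is a homomorphism: `resD (W * H ^ n) = resD W * resD H ^ n` (`map_mul`, `map_pow`).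
* `ser_ample`: the same for ample `A` instead of `H`: `exists_fr` gives `m ≥ 1` and a frame of `A ^ m`; use `ser` for
  `W * A ^ i`, `i < m`, and `n = m * q + i`.
-/

set_option autoImplicit false

namespace Pool.Agent.H24.TK

open Pool.Agent.H54.RV Pool.Agent.H83.TU Pool.Agent.H83.TK

variable {k K : Type} [Field k] [Field K] [Algebra k K] {X : Mod k K} {H : Cart X} {r : ℕ}
  {t : Fin r → K}

/-- the restrictions of the sections of `D` -/
private noncomputable def rg (hX : IsVar X) (z : X.P) (D : Cart X) : Submodule k (X.kap z) :=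
  LinearMap.range ((secL (resD hX z D) 1).subtype ∘ₗ resS hX z D 1)

private theorem mem_rg (hX : IsVar X) (z : X.P) (D : Cart X) (c : X.kap z) :
    c ∈ rg hX z D ↔ ∃ s, Sec D 1 s ∧ X.rs z (s * D.eq z) = c := by
  constructor
  · rintro ⟨⟨s, hs⟩, rfl⟩
    exact ⟨s, hs, by rw [LinearMap.comp_apply, Submodule.subtype_apply, resS_coe, pow_one]⟩
  · rintro ⟨s, hs, rfl⟩
    exact ⟨⟨s, hs⟩, by rw [LinearMap.comp_apply, Submodule.subtype_apply, resS_coe, pow_one]⟩

private theorem surj_of_rg (hX : IsVar X) (z : X.P) (D : Cart X) (h : secL (resD hX z D) 1 ≤ rg hX z D) :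
    Function.Surjective (resS hX z D 1) := by
  rintro ⟨c, hc⟩
  obtain ⟨s, hs⟩ := h hc
  exact ⟨s, Subtype.ext hs⟩

private theorem rg_mul (hX : IsVar X) (z : X.P) (D E : Cart X) {c d : X.kap z} (hc : c ∈ rg hX z D)
    (hd : d ∈ rg hX z E) : c * d ∈ rg hX z (D * E) := by
  obtain ⟨s, hs, rfl⟩ := (mem_rg hX z D c).1 hc
  obtain ⟨u, hu, rfl⟩ := (mem_rg hX z E d).1 hd
  refine (mem_rg hX z _ _).2 ⟨s * u, sec_mul' D E s u hs hu, ?_⟩
  have h1 := hs z
  have h2 := hu z
  rw [pow_one] at h1 h2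
  rw [← rs_mul z h1 h2, mul_eq]
  congr 1
  ring

private theorem rg_one (hX : IsVar X) (z : X.P) : (1 : X.kap z) ∈ rg hX z 1 := by
  refine (mem_rg hX z _ _).2 ⟨1, fun x => ?_, ?_⟩
  · rw [one_eq, one_pow, one_mul]
    exact (X.O x).one_mem
  · rw [one_eq, one_mul, rs_one]

private theorem rg_pow (hX : IsVar X) (z : X.P) (D : Cart X) {c : X.kap z} (hc : c ∈ rg hX z D) (n : ℕ) :
    c ^ n ∈ rg hX z (D ^ n) := by
  induction n with
  | zero =>
    rw [pow_zero, pow_zero]
    exact rg_one hX z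
  | succ n ih =>
    rw [pow_succ, pow_succ]
    exact rg_mul hX z _ _ ih hc

private theorem rg_fr (hX : IsVar X) (hF : Fr H r t) (z : X.P) (j : Fin r) :
    X.rs z (t j * H.eq z) ∈ rg hX z H :=
  (mem_rg hX z _ _).2 ⟨t j, hF.sec j, rfl⟩

private theorem rg_prod (hX : IsVar X) (z : X.P) (u : Fin r → X.kap z) (hu : ∀ j, u j ∈ rg hX z H)
    (β : Fin r → ℕ) (s : Finset (Fin r)) : ∏ j ∈ s, u j ^ β j ∈ rg hX z (H ^ ∑ j ∈ s, β j) := by
  classical
  induction s using Finset.induction_on with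
  | empty =>
    rw [Finset.prod_empty, Finset.sum_empty, pow_zero]
    exact rg_one hX z
  | insert a s ha ih =>
    rw [Finset.prod_insert ha, Finset.sum_insert ha, pow_add]
    exact rg_mul hX z _ _ (rg_pow hX z _ (hu a) _) ih

theorem lift_pow (hX : IsVar X) (hF : Fr H r t) (z : X.P) (W : Cart X) (w : X.kap z)
    (hw : Sec (resD hX z W) 1 w) (j : Fin r) :
    ∃ m₀, ∀ m ≥ m₀, ∃ s, Sec (W * H ^ m) 1 s ∧
      X.rs z (s * (W * H ^ m).eq z) = X.rs z (t j * H.eq z) ^ m * w := by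
  have hm : t j * H.eq z ∈ X.O z := by
    have h1 := hF.sec j z
    rwa [pow_one] at h1
  by_cases hz : z ∈ nz H 1 (t j)
  · obtain ⟨a, ha, haw⟩ := lift_mod hX (hF.aff j) hz W w (fun x _ => by
      have h1 := hw x
      rwa [pow_one] at h1)
    obtain ⟨N, hN⟩ := ext_sec hX H W 1 (t j) a (hF.sec j) ha
    refine ⟨N, fun m hmN => ⟨t j ^ m * a, fun y => ?_, ?_⟩⟩
    · have h1 := hN m hmN y
      rw [pow_one] at h1
      rw [pow_one, mul_eq, pow_eq, mul_comm (W.eq y)]
      exact h1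
    · rw [mul_eq, pow_eq, ← haw, ← rs_pow z hm, ← rs_mul z ((X.O z).pow_mem hm m) (ha z hz)]
      congr 1
      ring
  · have h0 : X.rs z (t j * H.eq z) = 0 := by
      by_contra h
      apply hz
      change Un (X.O z) (t j * H.eq z ^ 1)
      rw [pow_one]
      exact (rs_ne z hm).1 h
    refine ⟨1, fun m hm1 => ⟨0, fun y => ?_, ?_⟩⟩
    · rw [zero_mul]
      exact (X.O y).zero_mem
    · rw [zero_mul, h0, zero_pow (by omega), zero_mul, rs_zero]

private theorem fd_span [CharZero k] (hX : IsVar X) (hg : ∃ g, Gen X g) {A : Cart X} (hA : Ample A) (W : Cart X) :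
    ∃ S : Finset K, Submodule.span k (S : Set K) = secL W 1 :=
  (Submodule.fg_iff_finiteDimensional _).2 (fd hX hg hA W)

private theorem ser_unif [CharZero k] (hX : IsVar X) (hF : Fr H r t) (z : X.P) (W : Cart X) :
    ∃ m₀, ∀ w ∈ secL (resD hX z W) 1, ∀ j, ∀ m ≥ m₀,
      X.rs z (t j * H.eq z) ^ m * w ∈ rg hX z (W * H ^ m) := by
  obtain ⟨S, hS⟩ := fd_span (isVar_sub hX z) ⟨_, gen_sub hX z⟩ (hF.res hX z).ample (resD hX z W)
  have hmem : ∀ w : S, Sec (resD hX z W) 1 w.1 := by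
    intro w
    have h1 : w.1 ∈ Submodule.span k (S : Set (X.kap z)) := Submodule.subset_span w.2
    rw [hS] at h1
    exact h1
  have h := fun (w : S) (j : Fin r) => lift_pow hX hF z W w.1 (hmem w) j
  choose m hm using h
  refine ⟨∑ w : S, ∑ j, m w j, fun w hw j e he => ?_⟩
  rw [← hS] at hw
  induction hw using Submodule.span_induction with
  | mem x hx =>
    have h1 : m ⟨x, hx⟩ j ≤ e := by
      refine le_trans ?_ he
      refine le_trans ?_ (Finset.single_le_sum (f := fun w : S => ∑ j, m w j) (fun _ _ => Nat.zero_le _)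
        (Finset.mem_univ ⟨x, hx⟩))
      exact Finset.single_le_sum (f := fun j => m ⟨x, hx⟩ j) (fun _ _ => Nat.zero_le _) (Finset.mem_univ j)
    exact (mem_rg hX z _ _).2 (hm ⟨x, hx⟩ j e h1)
  | zero =>
    rw [mul_zero]
    exact Submodule.zero_mem _
  | add x y _ _ hx hy =>
    rw [mul_add]
    exact Submodule.add_mem _ hx hy
  | smul c x _ hx =>
    rw [mul_smul_comm]
    exact Submodule.smul_mem _ c hx

private theorem ser_span [CharZero k] (hX : IsVar X) (z : X.P) (W : Cart X) (u : Fin r → X.kap z) (n₁ : ℕ)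
    (hn₁ : ∀ n ≥ n₁, ∀ s, Sec (resD hX z W * resD hX z H ^ (n + 1)) 1 s →
      ∃ b : Fin r → X.kap z, (∀ j, Sec (resD hX z W * resD hX z H ^ n) 1 (b j)) ∧ s = ∑ j, u j * b j) (d : ℕ) :
    ∀ c, Sec (resD hX z W * resD hX z H ^ (n₁ + d)) 1 c →
      c ∈ Submodule.span k {c | ∃ (α : Fin r → ℕ) (w : X.kap z), ∑ j, α j = d ∧
        w ∈ secL (resD hX z (W * H ^ n₁)) 1 ∧ c = (∏ j, u j ^ α j) * w} := by
  classical
  induction d with
  | zero =>
    intro c hc
    refine Submodule.subset_span ⟨0, c, ?_, ?_, ?_⟩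
    · simp
    · rw [map_mul, map_pow]
      exact hc
    · simp
  | succ d ih =>
    intro c hc
    obtain ⟨b, hb, rfl⟩ := hn₁ (n₁ + d) (by omega) c hc
    refine Submodule.sum_mem _ fun j _ => ?_
    have h1 := ih (b j) (hb j)
    generalize b j = y at h1
    induction h1 using Submodule.span_induction with
    | mem x hx =>
      obtain ⟨α, w, hα, hw, rfl⟩ := hx
      refine Submodule.subset_span ⟨α + Pi.single j 1, w, ?_, hw, ?_⟩
      · simp only [Pi.add_apply, Finset.sum_add_distrib, hα]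
        rw [Finset.sum_pi_single' j 1 Finset.univ]
        simp
      · have h2 : ∏ i, u i ^ ((α + Pi.single j 1 : Fin r → ℕ) i) = (∏ i, u i ^ α i) * u j := by
          simp only [Pi.add_apply, pow_add, Finset.prod_mul_distrib]
          congr 1
          rw [Finset.prod_eq_single j]
          · rw [Pi.single_eq_same, pow_one]
          · intro i _ hi
            rw [Pi.single_eq_of_ne hi, pow_zero]
          · intro h
            exact absurd (Finset.mem_univ j) h
        rw [h2]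
        ring
    | zero =>
      rw [mul_zero]
      exact Submodule.zero_mem _
    | add x y _ _ hx hy =>
      rw [mul_add]
      exact Submodule.add_mem _ hx hy
    | smul c x _ hx =>
      rw [mul_smul_comm]
      exact Submodule.smul_mem _ c hx

theorem ser [CharZero k] (hX : IsVar X) (hF : Fr H r t) (z : X.P) (W : Cart X) :
    ∃ n₀, ∀ n ≥ n₀, Function.Surjective (resS hX z (W * H ^ n) 1) := by
  classical
  obtain ⟨n₁, hn₁⟩ := gen_le (isVar_sub hX z) ⟨_, gen_sub hX z⟩ (hF.res hX z) (resD hX z W)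
  obtain ⟨m₀, hm₀⟩ := ser_unif hX hF z (W * H ^ n₁)
  refine ⟨n₁ + (r * m₀ + 1), fun n hn => ?_⟩
  obtain ⟨d, rfl⟩ : ∃ d, n = n₁ + d := ⟨n - n₁, by omega⟩
  apply surj_of_rg
  intro c hc
  have hc' : Sec (resD hX z W * resD hX z H ^ (n₁ + d)) 1 c := by
    rw [← map_pow, ← map_mul]
    exact hc
  have h1 := ser_span hX z W _ n₁ hn₁ d c hc'
  refine Submodule.span_le.2 ?_ h1
  rintro _ ⟨α, w, hα, hw, rfl⟩
  obtain ⟨j, hj⟩ : ∃ j, m₀ ≤ α j := by
    by_contra h
    push Not at h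
    have h2 : ∑ j, α j ≤ ∑ _j : Fin r, m₀ := Finset.sum_le_sum fun j _ => (h j).le
    rw [Finset.sum_const, Finset.card_univ, Fintype.card_fin, smul_eq_mul] at h2
    omega
  obtain ⟨β, hβ⟩ : ∃ β : Fin r → ℕ, β = α - Pi.single j m₀ := ⟨_, rfl⟩
  have h2 := rg_prod hX z _ (rg_fr hX hF z) β Finset.univ
  have h3 := hm₀ w hw j m₀ le_rfl
  have h4 := rg_mul hX z _ _ h2 h3
  have h5 : ∀ i, α i = β i + (Pi.single j m₀ : Fin r → ℕ) i := by
    intro i
    rw [hβ, Pi.sub_apply]
    by_cases hi : i = j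
    · subst hi
      rw [Pi.single_eq_same]
      omega
    · rw [Pi.single_eq_of_ne hi]
      omega
  have h6 : ∑ i, (Pi.single j m₀ : Fin r → ℕ) i = m₀ := by
    rw [Finset.sum_pi_single' j m₀ Finset.univ]
    simp
  have h7 : d = ∑ i, β i + m₀ := by
    rw [← h6, ← Finset.sum_add_distrib, ← hα]
    exact Finset.sum_congr rfl fun i _ => h5 i
  have h8 : H ^ (∑ i, β i) * (W * H ^ n₁ * H ^ m₀) = W * H ^ (n₁ + d) := by
    conv_rhs => rw [h7, pow_add, pow_add]
    rw [mul_comm (H ^ (∑ i, β i)), mul_assoc, mul_assoc, mul_comm (H ^ m₀)]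
  rw [h8] at h4
  have h9 : ∏ i, X.rs z (t i * H.eq z) ^ α i =
      (∏ i, X.rs z (t i * H.eq z) ^ β i) * X.rs z (t j * H.eq z) ^ m₀ := by
    have h10 : ∏ i, X.rs z (t i * H.eq z) ^ (Pi.single j m₀ : Fin r → ℕ) i = X.rs z (t j * H.eq z) ^ m₀ := by
      rw [Finset.prod_eq_single j]
      · rw [Pi.single_eq_same]
      · intro i _ hi
        rw [Pi.single_eq_of_ne hi, pow_zero]
      · intro h
        exact absurd (Finset.mem_univ j) h
    rw [← h10, ← Finset.prod_mul_distrib]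
    exact Finset.prod_congr rfl fun i _ => by rw [← pow_add, ← h5]
  rw [h9, mul_assoc]
  exact h4

theorem ser_ample [CharZero k] (hX : IsVar X) {A : Cart X} (hA : Ample A) (z : X.P) (W : Cart X) :
    ∃ n₀, ∀ n ≥ n₀, Function.Surjective (resS hX z (W * A ^ n) 1) := by
  obtain ⟨m, hm, r, t, hF⟩ := exists_fr hX A hA
  have h := fun i => ser hX hF z (W * A ^ i)
  choose n₁ hn₁ using h
  refine ⟨m * ∑ i ∈ Finset.range m, n₁ i, fun n hn => ?_⟩
  have hi : n % m < m := Nat.mod_lt _ hm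
  have h1 : n₁ (n % m) ≤ n / m := by
    have h2 : n₁ (n % m) ≤ ∑ i ∈ Finset.range m, n₁ i :=
      Finset.single_le_sum (f := n₁) (fun _ _ => Nat.zero_le _) (Finset.mem_range.2 hi)
    refine le_trans h2 ?_
    rw [Nat.le_div_iff_mul_le hm, mul_comm]
    exact hn
  have h3 : W * A ^ n = W * A ^ (n % m) * (A ^ m) ^ (n / m) := by
    rw [← pow_mul, mul_assoc, ← pow_add, Nat.mod_add_div]
  rw [h3]
  exact hn₁ _ _ h1

end Pool.Agent.H24.TK
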