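import Mathlib

/-!
# THEOREM K (MP_e49dc9_ag), chapter T2: integral closures in finitely generated fields

[H24 TK Alg]  `A` a finitely generated domain over the field `k` of characteristic `0`, `L` a field which contains `A`,
is algebraic over `A` and is finitely generated (as a field) over `k`.  Then the integral closure of `A` in `L` is a
noetherian `A`-module (Noether).

Proof.  Noether normalization (`exists_integral_inj_algHom_of_fg k A`): `P = MvPolynomial (Fin s) k → A` injective and
integral.  `E = FractionRing P`; `L` is an `E`-algebra (`FractionRing.liftAlgebra P L`, `FaithfulSMul P L`); towers as in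
`H20/TU/GRO.lean` (`gf`).
`fin_alg`: `L` is finite over `E`: `L = k(T)` with `T` finite, so `IntermediateField.adjoin E T = ⊤` (it contains the
image of `k(T)`: `IntermediateField.adjoin k T ≤ restrictScalars`, or show that every element of `⊤` is in it by
`IntermediateField.adjoin_induction`), and all elements of `T` are algebraic over `E` (algebraic over `A`, `A` integral
over `P`: `Algebra.IsAlgebraic.trans` / `IsAlgebraic.tower_top`), so `IntermediateField.finiteDimensional_adjoin`.
`E` has characteristic `0`, so `L / E` is separable; `P` is integrally closed and noetherian;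
`IsIntegralClosure.isNoetherian P E L (integralClosure P L)` : `IsNoetherian P (integralClosure P L)`.
An element of `L` which is integral over `A` is integral over `P` (`isIntegral_trans`), so
`integralClosure A L`, as a `P`-module, embeds in `integralClosure P L`: `IsNoetherian P (integralClosure A L)`
(`isNoetherian_of_injective`), hence `IsNoetherian A (integralClosure A L)` (`isNoetherian_of_tower`).
-/

set_option autoImplicit false

namespace Pool.Agent.H24.TK

/-- a field which is finitely generated over `k` and algebraic over the polynomials is finite over the field of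
rational functions -/
theorem fin_alg {k P L : Type} [Field k] [CommRing P] [IsDomain P] [Algebra k P] [Field L]
    [Algebra k L] [Algebra P L] [IsScalarTower k P L] [FaithfulSMul P L] [Algebra (FractionRing P) L]
    [IsScalarTower P (FractionRing P) L] (halg : Algebra.IsAlgebraic P L)
    (hfg : (⊤ : IntermediateField k L).FG) : FiniteDimensional (FractionRing P) L := by
  obtain ⟨T, hT⟩ := hfg
  have hkE : ∀ x : k, algebraMap k L x =
      algebraMap (FractionRing P) L (algebraMap P (FractionRing P) (algebraMap k P x)) := by
    intro x
    rw [← IsScalarTower.algebraMap_apply P (FractionRing P) L, ← IsScalarTower.algebraMap_apply k P L]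
  have htop : IntermediateField.adjoin (FractionRing P) (T : Set L) = ⊤ := by
    rw [eq_top_iff]
    intro x _
    have hx : x ∈ IntermediateField.adjoin k (T : Set L) := by
      rw [hT]
      exact IntermediateField.mem_top
    induction hx using IntermediateField.adjoin_induction with
    | mem x hx => exact IntermediateField.subset_adjoin _ _ hx
    | algebraMap x =>
      rw [hkE]
      exact IntermediateField.algebraMap_mem _ _
    | add x y _ _ hx hy => exact add_mem (hx trivial) (hy trivial)
    | inv x _ hx => exact inv_mem (hx trivial)
    | mul x y _ _ hx hy => exact mul_mem (hx trivial) (hy trivial)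
  have hfin : FiniteDimensional (FractionRing P)
      ↥(IntermediateField.adjoin (FractionRing P) (T : Set L)) := by
    refine IntermediateField.finiteDimensional_adjoin fun x _ => ?_
    exact ((halg.isAlgebraic x).extendScalars (IsFractionRing.injective P (FractionRing P))).isIntegral
  rw [htop] at hfin
  exact Module.Finite.equiv (IntermediateField.topEquiv (F := FractionRing P) (E := L)).toLinearEquiv

/-- the integral closure is a noetherian module -/
theorem int_noeth {k A L : Type} [Field k] [CharZero k] [CommRing A] [IsDomain A] [Algebra k A]
    [Algebra.FiniteType k A] [Field L] [Algebra k L] [Algebra A L] [IsScalarTower k A L] [FaithfulSMul A L]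
    (halg : Algebra.IsAlgebraic A L) (hfg : (⊤ : IntermediateField k L).FG) :
    IsNoetherian A (integralClosure A L) := by
  obtain ⟨s, g, hg, hgi⟩ := exists_integral_inj_algHom_of_fg k A
  let _ : Algebra (MvPolynomial (Fin s) k) A := g.toRingHom.toAlgebra
  let _ : Algebra (MvPolynomial (Fin s) k) L := ((algebraMap A L).comp g.toRingHom).toAlgebra
  have h1 : IsScalarTower (MvPolynomial (Fin s) k) A L := IsScalarTower.of_algebraMap_eq fun _ => rfl
  have h2 : IsScalarTower k (MvPolynomial (Fin s) k) L := by
    refine IsScalarTower.of_algebraMap_eq fun x => ?_
    show algebraMap k L x = algebraMap A L (g (algebraMap k (MvPolynomial (Fin s) k) x))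
    rw [AlgHom.commutes, ← IsScalarTower.algebraMap_apply k A L]
  have hinj : Function.Injective (algebraMap (MvPolynomial (Fin s) k) L) :=
    (FaithfulSMul.algebraMap_injective A L).comp hg
  have h3 : FaithfulSMul (MvPolynomial (Fin s) k) L := (faithfulSMul_iff_algebraMap_injective _ _).2 hinj
  let _ : Algebra (FractionRing (MvPolynomial (Fin s) k)) L :=
    FractionRing.liftAlgebra (MvPolynomial (Fin s) k) L
  have h4 : IsScalarTower (MvPolynomial (Fin s) k) (FractionRing (MvPolynomial (Fin s) k)) L :=
    FractionRing.isScalarTower_liftAlgebra (MvPolynomial (Fin s) k) L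
  have h5 : Algebra.IsIntegral (MvPolynomial (Fin s) k) A := ⟨fun x => hgi x⟩
  have h6 : Algebra.IsAlgebraic (MvPolynomial (Fin s) k) L :=
    Algebra.IsAlgebraic.trans (MvPolynomial (Fin s) k) A L
  have h7 : FiniteDimensional (FractionRing (MvPolynomial (Fin s) k)) L := fin_alg h6 hfg
  have h8 : CharZero (MvPolynomial (Fin s) k) :=
    charZero_of_injective_algebraMap (MvPolynomial.C_injective (Fin s) k)
  have h9 : CharZero (FractionRing (MvPolynomial (Fin s) k)) := IsFractionRing.charZero _
  have h10 : IsNoetherian (MvPolynomial (Fin s) k) (integralClosure (MvPolynomial (Fin s) k) L) :=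
    IsIntegralClosure.isNoetherian (MvPolynomial (Fin s) k) (FractionRing (MvPolynomial (Fin s) k)) L
      (integralClosure (MvPolynomial (Fin s) k) L)
  have h11 : IsNoetherian (MvPolynomial (Fin s) k) (integralClosure A L) := by
    let f : integralClosure A L →ₗ[MvPolynomial (Fin s) k]
        integralClosure (MvPolynomial (Fin s) k) L :=
      { toFun := fun x => ⟨x.1, isIntegral_trans (R := MvPolynomial (Fin s) k) (A := A) x.1 x.2⟩
        map_add' := fun _ _ => rfl
        map_smul' := fun _ _ => rfl }
    refine isNoetherian_of_injective f fun x y hxy => Subtype.ext ?_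
    exact congrArg (fun z : integralClosure (MvPolynomial (Fin s) k) L => (z : L)) hxy
  exact isNoetherian_of_tower (MvPolynomial (Fin s) k) h11

end Pool.Agent.H24.TK
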