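import Pool.Agent.H24.TK.Grd
import Pool.Agent.H24.TK.Alg
import Pool.Agent.H20.TU.CHT

/-!
# THEOREM K (MP_e49dc9_ag), chapter T2: finiteness (Serre)

[H24 TK Fin]  `hX : IsVar X`, a generic point, characteristic `0`, `Fr H r t` a frame.

* `gM_fin`: if `Q n` consists of sections of `n H` (`Q n ≤ secL H n`), then `gM hQ` is a finite `AA k t`-module.
  Proof: `L := FractionRing K[X]` (or `RatFunc K`), an algebra over `AA k t` (through `K[X]`; faithful, tower over `k`).
  `AA k t` is a finitely generated `k`-algebra (`Algebra.adjoin` of a finite set) and a domain.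
  `L` is finitely generated over `k` as a field: `K` is (`fg_of_gen`), `L = K(X)`.
  `L` is algebraic over `AA k t`: the algebraic elements of `L` form a subfield; it contains `K`: by `sec_frac`
  (`H20/TU/CHT.lean`) on the affine set `nz H 1 (t j)` with `t j ≠ 0`, `f = a / c` with `a`, `c` regular there, `c ≠ 0`, by
  `ext_sec` (`M = 1`) `t j ^ N * a` and `t j ^ N * c` are sections of `N H`, `monomial N (t j ^ N * a)` and
  `monomial N (t j ^ N * c)` are integral over `AA k t` (`int_sec`), and `C f` is their quotient in `L`; and it contains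
  `X = monomial 1 (t j) / C (t j)`.
  `int_noeth`: `IsNoetherian (AA k t) (integralClosure (AA k t) L)`.  The map `gM hQ → integralClosure (AA k t) L`
  (`int_all`) is injective and linear: `isNoetherian_of_injective`, so `gM hQ` is noetherian, so finite.
* `fin_H`: so (`grd`) `secL H n` is finite dimensional, and `secL H (n + 1) ≤ tQ t (secL H) n` for `n ≥ n₀`.
* `gen_le`: the same for the sections of `W H ^ n`, `W` any divisor.  Proof: `exists_sec` for `W⁻¹`: `m` and `s ≠ 0` with
  `Sec (H ^ m * W⁻¹) 1 s`.  `Q n := (secL (W * (H ^ m)⁻¹ * H ^ n) 1).map (LinearMap.mulLeft k s)`; `Q n ≤ secL H n`.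
  `gM_fin` and `grd` for `Q`; then divide by `s` and replace `n` by `n + m` (`W * (H ^ m)⁻¹ * H ^ (n + m) = W * H ^ n`,
  `mul_assoc`, `pow_add` in the commutative group `Cart X`).
* `fd`, `fdn`: all spaces of sections are finite dimensional, for every ample `H` (`exists_fr`).
-/

set_option autoImplicit false

namespace Pool.Agent.H24.TK

open Pool.Agent.H54.RV Pool.Agent.H83.TU Pool.Agent.H83.TK Polynomial

/-- the field of the fractions of `K[X]` is finitely generated -/
private theorem fg_L {k K L : Type} [Field k] [Field K] [Algebra k K] [Field L] [Algebra K[X] L]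
    [IsFractionRing K[X] L] [Algebra k L] [IsScalarTower k K[X] L]
    (hK : (⊤ : IntermediateField k K).FG) : (⊤ : IntermediateField k L).FG := by
  have h1 : Algebra.EssFiniteType k K := IntermediateField.fg_top_iff.1 hK
  have h2 : Algebra.EssFiniteType k K[X] := Algebra.EssFiniteType.comp k K K[X]
  have h3 : Algebra.EssFiniteType K[X] L :=
    Algebra.EssFiniteType.of_isLocalization L (nonZeroDivisors K[X])
  have h4 : Algebra.EssFiniteType k L := Algebra.EssFiniteType.comp k K[X] L
  exact IntermediateField.fg_top_iff.2 h4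

variable {k K : Type} [Field k] [CharZero k] [Field K] [Algebra k K] {X : Mod k K} {H : Cart X} {r : ℕ}
  {t : Fin r → K}

omit [CharZero k] in
/-- the sections of the multiples of `H` are stable under the multiplication by the frame -/
theorem fr_mul (hF : Fr H r t) (n : ℕ) (j : Fin r) (b : K) (hb : b ∈ secL H n) : t j * b ∈ secL H (n + 1) := by
  intro x
  have h1 := (X.O x).mul_mem (hF.sec j x) (hb x)
  have h2 : t j * H.eq x ^ 1 * (b * H.eq x ^ n) = t j * b * H.eq x ^ (n + 1) := by ring
  rwa [h2] at h1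

/-- the field of the fractions of `K[X]` is algebraic over the forms in the frame -/
private theorem alg_L {L : Type} [Field L] [Algebra K[X] L] [IsFractionRing K[X] L]
    (hX : IsVar X) (hg : ∃ g, Gen X g) (hF : Fr H r t) :
    Algebra.IsAlgebraic (AA k t) L := by
  have hinj : Function.Injective (algebraMap K[X] L) := IsFractionRing.injective K[X] L
  obtain ⟨j, hj⟩ := hF.exists_ne hX
  have hne : (nz H 1 (t j)).Nonempty := by
    obtain ⟨g, hg⟩ := hg
    refine ⟨g, mul_ne_zero hj (pow_ne_zero _ (H.ne g)), ?_, ?_⟩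
    · rw [hg.top]; exact Algebra.mem_top
    · rw [hg.top]; exact Algebra.mem_top
  -- integral elements of `K[X]` give algebraic elements of `L`
  have hint : ∀ p : K[X], IsIntegral (AA k t) p → IsAlgebraic (AA k t) (algebraMap K[X] L p) := by
    intro p hp
    have h1 : IsIntegral (AA k t) (algebraMap K[X] L p) :=
      hp.map (IsScalarTower.toAlgHom (AA k t) K[X] L)
    exact h1.isAlgebraic
  -- the sections
  have hsec : ∀ a ∈ X.sec (nz H 1 (t j)), ∃ N : ℕ, ∀ n ≥ N, Sec H n (t j ^ n * a) := by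
    intro a ha
    obtain ⟨N, hN⟩ := ext_sec hX H 1 1 (t j) a (hF.sec j) (fun y hy => by
      rw [one_eq, mul_one]
      exact (mem_sec _ a).1 ha y hy)
    refine ⟨N, fun n hn y => ?_⟩
    have h1 := hN n hn y
    rwa [one_eq, mul_one, pow_one] at h1
  have hC : ∀ x : K, IsAlgebraic (AA k t) (algebraMap K[X] L (C x)) := by
    intro x
    obtain ⟨s, hs, hs0, hxs⟩ := Pool.Agent.H20.TU.sec_frac hX hg _ (hF.aff j) hne x
    obtain ⟨N1, h1⟩ := hsec s hs
    obtain ⟨N2, h2⟩ := hsec (x * s) hxs
    have h3 := hint _ (int_sec hX hg hF (max N1 N2) _ (h1 _ (le_max_left _ _)))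
    have h4 := hint _ (int_sec hX hg hF (max N1 N2) _ (h2 _ (le_max_right _ _)))
    have h5 : algebraMap K[X] L (C x) =
        algebraMap K[X] L (monomial (max N1 N2) (t j ^ (max N1 N2) * (x * s))) *
          (algebraMap K[X] L (monomial (max N1 N2) (t j ^ (max N1 N2) * s)))⁻¹ := by
      have h6 : algebraMap K[X] L (monomial (max N1 N2) (t j ^ (max N1 N2) * s)) ≠ 0 := by
        rw [Ne, map_eq_zero_iff _ hinj, monomial_eq_zero_iff]
        exact mul_ne_zero (pow_ne_zero _ hj) hs0
      rw [eq_mul_inv_iff_mul_eq₀ h6, ← map_mul, C_mul_monomial]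
      congr 2
      ring
    rw [h5]
    exact h4.mul h3.inv
  have hX' : IsAlgebraic (AA k t) (algebraMap K[X] L Polynomial.X) := by
    have h1 : IsAlgebraic (AA k t) (algebraMap K[X] L (monomial 1 (t j))) := by
      have h2 : (monomial 1 (t j) : K[X]) ∈ AA k t := Algebra.subset_adjoin ⟨j, rfl⟩
      exact hint _ (isIntegral_algebraMap (x := (⟨_, h2⟩ : AA k t)))
    have h3 : algebraMap K[X] L Polynomial.X = algebraMap K[X] L (monomial 1 (t j)) *
        (algebraMap K[X] L (C (t j)))⁻¹ := by
      have h6 : algebraMap K[X] L (C (t j)) ≠ 0 := by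
        rw [Ne, map_eq_zero_iff _ hinj, C_eq_zero]
        exact hj
      rw [eq_mul_inv_iff_mul_eq₀ h6, ← map_mul, mul_comm, C_mul_X_eq_monomial]
    rw [h3]
    exact h1.mul (hC (t j)).inv
  have hpol : ∀ p : K[X], IsAlgebraic (AA k t) (algebraMap K[X] L p) := by
    intro p
    induction p using Polynomial.induction_on' with
    | add p q hp hq =>
      rw [map_add]
      exact hp.add hq
    | monomial n a =>
      rw [← C_mul_X_pow_eq_monomial, map_mul, map_pow]
      exact (hC a).mul (hX'.pow n)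
  refine ⟨fun z => ?_⟩
  obtain ⟨p, q, hq, rfl⟩ := IsFractionRing.div_surjective (A := K[X]) z
  rw [div_eq_mul_inv]
  exact (hpol p).mul (hpol q).inv

theorem gM_fin (hX : IsVar X) (hg : ∃ g, Gen X g) (hF : Fr H r t) {Q : ℕ → Submodule k K}
    (hQ : ∀ n j, ∀ b ∈ Q n, t j * b ∈ Q (n + 1)) (hle : ∀ n, Q n ≤ secL H n) : Module.Finite (AA k t) (gM hQ) := by
  have hft : Algebra.FiniteType k (AA k t) := Algebra.FiniteType.adjoin_of_finite (Set.finite_range _)
  let L := FractionRing K[X]
  have hinj : Function.Injective (algebraMap K[X] L) := IsFractionRing.injective K[X] L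
  have halg : Algebra.IsAlgebraic (AA k t) L := alg_L hX hg hF
  have hfg : (⊤ : IntermediateField k L).FG := fg_L (fg_of_gen hX hg)
  have hfs : FaithfulSMul (AA k t) L := by
    rw [faithfulSMul_iff_algebraMap_injective]
    exact hinj.comp Subtype.val_injective
  have hn : IsNoetherian (AA k t) (integralClosure (AA k t) L) := int_noeth halg hfg
  let f : gM hQ →ₗ[AA k t] integralClosure (AA k t) L :=
    { toFun := fun p => ⟨algebraMap K[X] L p.1, by
        have h1 : IsIntegral (AA k t) p.1 := int_all hX hg hF p.1 fun n => hle n (p.2 n)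
        exact h1.map (IsScalarTower.toAlgHom (AA k t) K[X] L)⟩
      map_add' := fun p q => Subtype.ext (map_add (algebraMap K[X] L) p.1 q.1)
      map_smul' := fun a p => Subtype.ext (by
        show algebraMap K[X] L (a • p.1) = a • algebraMap K[X] L p.1
        rw [Algebra.smul_def, map_mul, Algebra.smul_def]
        rfl) }
  have hf : Function.Injective f := by
    intro p q hpq
    exact Subtype.ext (hinj (congrArg Subtype.val hpq))
  have h2 : IsNoetherian (AA k t) (gM hQ) := isNoetherian_of_injective f hf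
  exact Module.IsNoetherian.finite _ _

private theorem aux (hX : IsVar X) (hg : ∃ g, Gen X g) (hF : Fr H r t) (W : Cart X) :
    ∃ (m : ℕ) (s : K), s ≠ 0 ∧
      (∀ n, FiniteDimensional k ((secL (W * (H ^ m)⁻¹ * H ^ n) 1).map (LinearMap.mulLeft k s))) ∧
      ∃ n₀, ∀ n ≥ n₀, (secL (W * (H ^ m)⁻¹ * H ^ (n + 1)) 1).map (LinearMap.mulLeft k s) ≤
        tQ t (fun n => (secL (W * (H ^ m)⁻¹ * H ^ n) 1).map (LinearMap.mulLeft k s)) n := by
  obtain ⟨m, s, hs0, hs⟩ := exists_sec hX hF W⁻¹
  let Q : ℕ → Submodule k K := fun n =>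
    (secL (W * (H ^ m)⁻¹ * H ^ n) 1).map (LinearMap.mulLeft k s)
  have hQ : ∀ n j, ∀ b ∈ Q n, t j * b ∈ Q (n + 1) := by
    rintro n j _ ⟨q, hq, rfl⟩
    refine ⟨t j * q, ?_, ?_⟩
    · have h1 := sec_mul' H _ (t j) q (hF.sec j) hq
      have h2 : H * (W * (H ^ m)⁻¹ * H ^ n) = W * (H ^ m)⁻¹ * H ^ (n + 1) := by
        rw [pow_succ, mul_comm H, mul_assoc]
      rw [h2] at h1
      exact h1
    · simp only [LinearMap.mulLeft_apply]
      ring
  have hle : ∀ n, Q n ≤ secL H n := by
    rintro n _ ⟨q, hq, rfl⟩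
    have h1 := sec_mul' _ _ s q hs hq
    have h2 : H ^ m * W⁻¹ * (W * (H ^ m)⁻¹ * H ^ n) = H ^ n := by
      rw [mul_assoc W, mul_assoc (H ^ m), inv_mul_cancel_left, mul_inv_cancel_left]
    rw [h2, sec_pow_iff] at h1
    exact h1
  obtain ⟨h1, h2⟩ := grd hQ (gM_fin hX hg hF hQ hle)
  exact ⟨m, s, hs0, h1, h2⟩

theorem gen_le (hX : IsVar X) (hg : ∃ g, Gen X g) (hF : Fr H r t) (W : Cart X) :
    ∃ n₀, ∀ n ≥ n₀, ∀ s, Sec (W * H ^ (n + 1)) 1 s →
      ∃ b : Fin r → K, (∀ j, Sec (W * H ^ n) 1 (b j)) ∧ s = ∑ j, t j * b j := by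
  obtain ⟨m, s₀, hs0, -, n₀, hn⟩ := aux hX hg hF W
  have hW : ∀ n, W * (H ^ m)⁻¹ * H ^ (n + m) = W * H ^ n := by
    intro n
    rw [pow_add, mul_comm (H ^ n), mul_assoc, inv_mul_cancel_left]
  refine ⟨n₀, fun n hnn s hs => ?_⟩
  have h1 : s₀ * s ∈ (secL (W * (H ^ m)⁻¹ * H ^ (n + m + 1)) 1).map (LinearMap.mulLeft k s₀) := by
    refine ⟨s, ?_, rfl⟩
    have h2 : n + m + 1 = (n + 1) + m := by ring
    rw [h2, hW]
    exact hs
  obtain ⟨b, hb, hsb⟩ := hn (n + m) (le_add_right hnn) h1
  choose c hc hcb using hb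
  refine ⟨c, fun j => ?_, ?_⟩
  · have h3 := hc j
    simp only [hW] at h3
    exact h3
  · apply mul_left_cancel₀ hs0
    rw [hsb, Finset.mul_sum]
    refine Finset.sum_congr rfl fun j _ => ?_
    rw [← hcb j, LinearMap.mulLeft_apply]
    ring

/-- the spaces of sections are finite dimensional -/
theorem fd (hX : IsVar X) (hg : ∃ g, Gen X g) {A : Cart X} (hA : Ample A) (W : Cart X) :
    FiniteDimensional k (secL W 1) := by
  obtain ⟨m', -, r, t, hF⟩ := exists_fr hX A hA
  obtain ⟨m, s₀, hs0, hfd, -⟩ := aux hX hg hF W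
  have h1 := hfd m
  rw [inv_mul_cancel_right] at h1
  have hinj : Function.Injective (LinearMap.mulLeft k s₀) := fun a b hab => mul_left_cancel₀ hs0 hab
  exact Module.Finite.equiv (Submodule.equivMapOfInjective _ hinj (secL W 1)).symm

theorem fdn (hX : IsVar X) (hg : ∃ g, Gen X g) {A : Cart X} (hA : Ample A) (W : Cart X) (n : ℕ) :
    FiniteDimensional k (secL W n) := by
  rw [← secL_pow]
  exact fd hX hg hA (W ^ n)

end Pool.Agent.H24.TK
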