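import Pool.Agent.H24.TK.Fin

/-!
# THEOREM K (MP_e49dc9_ag), chapter T2: the ring of sections is noetherian

[H24 TK Noe]  `BB H : Subalgebra k K[X]`: the polynomials `p` with `p.coeff n` a section of `n H` for all `n`.

* `bb_noeth`: `BB H` is noetherian if `H` has a frame.  Proof: `gM (fr_mul hF)` is a finite module over the noetherian ring
  `AA k t` (finitely generated algebra), so a noetherian `AA k t`-module; an ideal of `BB H` is an `AA k t`-submodule
  (`AA k t ≤ BB H`): `isNoetherian_of_tower`, or: an ascending chain of ideals gives an ascending chain of submodules.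
  (Direct: `Ideal` of `BB H` ↦ the `AA k t`-submodule `{p | ∃ h : p ∈ BB H, ⟨p, h⟩ ∈ I}` of `gM`; strictly monotone.)
* `hom_acc`: ascending chain condition in the language of families: `J i n ⊆ L(n H)`, `J i` stable under the
  multiplication by `L(m H)`, ascending in `i`: the chain becomes stationary.
-/

set_option autoImplicit false

namespace Pool.Agent.H24.TK

open Pool.Agent.H54.RV Pool.Agent.H83.TU Pool.Agent.H83.TK Polynomial

variable {k K : Type} [Field k] [Field K] [Algebra k K] {X : Mod k K} {H : Cart X} {r : ℕ}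
  {t : Fin r → K}

theorem sec_mulH (m n : ℕ) (a b : K) (ha : Sec H m a) (hb : Sec H n b) : Sec H (m + n) (a * b) := by
  intro x
  have h1 : a * b * H.eq x ^ (m + n) = (a * H.eq x ^ m) * (b * H.eq x ^ n) := by
    rw [pow_add]
    ring
  rw [h1]
  exact (X.O x).mul_mem (ha x) (hb x)

variable (H) in
/-- the ring of the sections of the multiples of `H` -/
noncomputable def BB : Subalgebra k K[X] where
  carrier := {p | ∀ n, Sec H n (p.coeff n)}
  mul_mem' := fun {a b} ha hb n => by
    rw [coeff_mul]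
    refine Submodule.sum_mem (secL H n) fun x hx => ?_
    rw [← Finset.HasAntidiagonal.mem_antidiagonal.1 hx]
    exact sec_mulH _ _ _ _ (ha _) (hb _)
  add_mem' := fun {a b} ha hb n => by
    rw [coeff_add]
    exact (secL H n).add_mem (ha n) (hb n)
  algebraMap_mem' := fun c n => by
    intro x
    rw [Polynomial.algebraMap_apply, coeff_C]
    split_ifs with h
    · rw [h, pow_zero, mul_one]
      exact (X.O x).algebraMap_mem c
    · rw [zero_mul]
      exact (X.O x).zero_mem

theorem mem_BB (p : K[X]) : p ∈ BB H ↔ ∀ n, Sec H n (p.coeff n) := Iff.rfl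

/-- the monomials of `BB H` -/
private theorem mono_BB (n : ℕ) (a : K) (ha : Sec H n a) : monomial n a ∈ BB H := by
  intro i
  rw [coeff_monomial]
  split_ifs with h
  · rw [← h]
    exact ha
  · exact (secL H i).zero_mem

private theorem aa_le_bb (hF : Fr H r t) : AA k t ≤ BB H := by
  refine Algebra.adjoin_le ?_
  rintro _ ⟨j, rfl⟩
  exact mono_BB 1 (t j) (hF.sec j)

private noncomputable def toSub (hF : Fr H r t) (I : Ideal (BB H)) : Submodule (AA k t) (gM (fr_mul hF)) where
  carrier := {p | (⟨p.1, p.2⟩ : BB H) ∈ I}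
  zero_mem' := I.zero_mem
  add_mem' := fun ha hb => I.add_mem ha hb
  smul_mem' := fun a _ hp => I.mul_mem_left ⟨a.1, aa_le_bb hF a.2⟩ hp

private theorem toSub_le (hF : Fr H r t) (I J : Ideal (BB H)) : toSub hF I ≤ toSub hF J ↔ I ≤ J := by
  constructor
  · intro h p hp
    exact h (show (⟨p.1, p.2⟩ : gM (fr_mul hF)) ∈ toSub hF I from hp)
  · intro h p hp
    exact h hp

theorem bb_noeth [CharZero k] (hX : IsVar X) (hg : ∃ g, Gen X g) (hF : Fr H r t) : IsNoetherianRing (BB H) := by
  have h1 : Module.Finite (AA k t) (gM (fr_mul hF)) := gM_fin hX hg hF (fr_mul hF) fun _ => le_rfl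
  have h0 : (AA k t).FG := ⟨(Set.finite_range _).toFinset, by rw [Set.Finite.coe_toFinset]; rfl⟩
  have h6 : Algebra.FiniteType k (AA k t) := (Subalgebra.fg_iff_finiteType _).1 h0
  have h2 : IsNoetherianRing (AA k t) := Algebra.FiniteType.isNoetherianRing k (AA k t)
  have h3 : IsNoetherian (AA k t) (gM (fr_mul hF)) :=
    isNoetherian_of_fg_of_noetherian _ (Submodule.fg_top _ |>.1 h1.fg_top)
  have h4 : StrictMono (toSub hF) := fun I J h =>
    lt_of_le_not_ge ((toSub_le hF I J).2 h.le) fun h5 => absurd ((toSub_le hF J I).1 h5) (not_le_of_gt h)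
  have h5 : WellFoundedGT (Submodule (AA k t) (gM (fr_mul hF))) := inferInstance
  exact isNoetherian_iff'.2 h4.wellFoundedGT

/-- a family of subspaces `J n` of `L(n H)`, stable under the multiplication by `L(m H)` -/
structure HIdeal (H : Cart X) where
  /-- the homogeneous components -/
  J : ℕ → Submodule k K
  le : ∀ n, J n ≤ secL H n
  mul : ∀ m n a b, Sec H m a → b ∈ J n → a * b ∈ J (m + n)

/-- the homogeneous ideal of `BB H` -/
noncomputable def HIdeal.idl (J : HIdeal H) : Ideal (BB H) where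
  carrier := {p | ∀ n, p.1.coeff n ∈ J.J n}
  zero_mem' := fun n => by
    change (0 : K[X]).coeff n ∈ J.J n
    rw [coeff_zero]
    exact (J.J n).zero_mem
  add_mem' := fun {a b} ha hb n => by
    change (a.1 + b.1).coeff n ∈ J.J n
    rw [coeff_add]
    exact (J.J n).add_mem (ha n) (hb n)
  smul_mem' := fun c p hp n => by
    change (c.1 * p.1).coeff n ∈ J.J n
    rw [coeff_mul]
    refine Submodule.sum_mem _ fun x hx => ?_
    rw [← Finset.HasAntidiagonal.mem_antidiagonal.1 hx]
    exact J.mul _ _ _ _ (c.2 x.1) (hp x.2)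

theorem HIdeal.mem_idl (J : HIdeal H) (n : ℕ) (a : K) :
    a ∈ J.J n ↔ ∃ h : monomial n a ∈ BB H, (⟨monomial n a, h⟩ : BB H) ∈ J.idl := by
  constructor
  · intro h
    refine ⟨mono_BB n a (J.le n h), fun i => ?_⟩
    change (monomial n a).coeff i ∈ J.J i
    rw [coeff_monomial]
    split_ifs with h1
    · rw [← h1]
      exact h
    · exact (J.J i).zero_mem
  · rintro ⟨h, h1⟩
    have h2 : (monomial n a).coeff n ∈ J.J n := h1 n
    rwa [coeff_monomial, if_pos rfl] at h2

/-- the ascending chain condition for homogeneous ideals -/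
theorem hom_acc_of (hN : IsNoetherianRing (BB H)) (J : ℕ → HIdeal H)
    (hJ : ∀ i n, (J i).J n ≤ (J (i + 1)).J n) : ∃ i₀, ∀ i ≥ i₀, (J i).J = (J i₀).J := by
  have h1 : Monotone fun i => (J i).idl := monotone_nat_of_le_succ fun i p hp n => hJ i n (hp n)
  obtain ⟨i₀, hi₀⟩ := monotone_stabilizes_iff_noetherian.2 hN ⟨_, h1⟩
  refine ⟨i₀, fun i hi => ?_⟩
  have h2 : (J i₀).idl = (J i).idl := hi₀ i hi
  funext n
  ext a
  rw [HIdeal.mem_idl, HIdeal.mem_idl, h2]

theorem hom_acc [CharZero k] (hX : IsVar X) (hg : ∃ g, Gen X g) (hF : Fr H r t) (J : ℕ → HIdeal H)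
    (hJ : ∀ i n, (J i).J n ≤ (J (i + 1)).J n) : ∃ i₀, ∀ i ≥ i₀, (J i).J = (J i₀).J :=
  hom_acc_of (bb_noeth hX hg hF) J hJ

end Pool.Agent.H24.TK
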