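import Pool.Agent.H24.TK.Int

/-!
# THEOREM K (MP_e49dc9_ag), chapter T2: graded modules over the forms in the frame

[H24 TK Grd]  `Q n`, `n : ℕ`, are subspaces of `K` with `t j * Q n ⊆ Q (n + 1)`.  `gM t Q hQ`: the `AA k t`-module of the
polynomials `p` with `p.coeff n ∈ Q n` for all `n`.

`aa_coeff`: for `a ∈ AA k t` and `q ∈ Q i`, `a.coeff m * q ∈ Q (i + m)`, and for `m ≥ 1` it is `∑ j, t j * b j` with
`b j ∈ Q (i + m - 1)`.  Proof: `Algebra.adjoin_induction` for the statement `R a := ∀ m i, ∀ q ∈ Q i, a.coeff m * q ∈ Q (i + m)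
∧ (1 ≤ m → ∃ b : Fin r → K, (∀ j, b j ∈ Q (i + m - 1)) ∧ a.coeff m * q = ∑ j, t j * b j)`: generators
(`coeff_monomial`), constants, sums; products by `coeff_mul` (a sum over the antidiagonal; each term
`a.coeff m₁ * (a'.coeff m₂ * q)`; if `m₁ ≥ 1` use the second part for `a` and the element `a'.coeff m₂ * q ∈ Q (i + m₂)`; if
`m₁ = 0` then `m₂ ≥ 1`, use the second part for `a'` and multiply by `a.coeff 0`, commuting with `t j`).
It is convenient to use the subspace `T n := {s | ∃ b : Fin r → K, (∀ j, b j ∈ Q n) ∧ s = ∑ j, t j * b j}` (`tQ` below).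

`aa_fin`: the space `{a.coeff m | a ∈ AA k t}` is finite dimensional: by induction on `m` it is contained in the span of
the products of `m` elements `t j` (for instance: `AA k t ≤` the subalgebra of the polynomials `p` with
`p.coeff m ∈ (Submodule.span k (Set.range t)) ^ m` (power of a submodule of the algebra `K`), which is finite dimensional,
`Submodule.FG.pow`).

`grd`: let `gM` be generated over `AA k t` by the finite set `G`, `N` a bound of the degrees of the elements of `G`.
For `s ∈ Q m` the polynomial `monomial m s` is in `gM`, so `monomial m s = ∑ a_g g` (`Submodule.mem_span_finset` or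
`Submodule.mem_span_set'`), `s = ∑_g ∑_(i ≤ N) a_g.coeff (m - i) * g.coeff i` (`coeff_mul`, sum over the antidiagonal).
For `m = n + 1`, `n ≥ N`: all the indices `m - i` are `≥ 1`, `aa_coeff` gives `s ∈ T n`.
Finite dimension: `Q m` is contained in the finite sum of the images of the finite dimensional spaces of `aa_fin` under
the multiplications by `g.coeff i`.
-/

set_option autoImplicit false

namespace Pool.Agent.H24.TK

open Polynomial

variable {k K : Type} [Field k] [Field K] [Algebra k K] {r : ℕ} (t : Fin r → K) (Q : ℕ → Submodule k K)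

/-- the subspace generated by the products of the elements of the frame and of `Q n` -/
def tQ (n : ℕ) : Submodule k K where
  carrier := {s | ∃ b : Fin r → K, (∀ j, b j ∈ Q n) ∧ s = ∑ j, t j * b j}
  zero_mem' := ⟨fun _ => 0, fun _ => (Q n).zero_mem, by simp⟩
  add_mem' := by
    rintro _ _ ⟨b, hb, rfl⟩ ⟨c, hc, rfl⟩
    refine ⟨fun j => b j + c j, fun j => (Q n).add_mem (hb j) (hc j), ?_⟩
    rw [← Finset.sum_add_distrib]
    exact Finset.sum_congr rfl fun j _ => (mul_add _ _ _).symm
  smul_mem' := by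
    rintro c _ ⟨b, hb, rfl⟩
    refine ⟨fun j => c • b j, fun j => (Q n).smul_mem c (hb j), ?_⟩
    rw [Finset.smul_sum]
    exact Finset.sum_congr rfl fun j _ => (mul_smul_comm _ _ _).symm

variable {t Q}

private theorem grd_tQ_single (n : ℕ) (j : Fin r) (q : K) (hq : q ∈ Q n) : t j * q ∈ tQ t Q n := by
  classical
  refine ⟨Pi.single j q, fun j' => ?_, ?_⟩
  · by_cases h : j' = j
    · subst h
      rw [Pi.single_eq_same]
      exact hq
    · rw [Pi.single_eq_of_ne h]
      exact (Q n).zero_mem
  · rw [Finset.sum_eq_single j]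
    · rw [Pi.single_eq_same]
    · intro j' _ h
      rw [Pi.single_eq_of_ne h, mul_zero]
    · intro h
      exact absurd (Finset.mem_univ j) h

private theorem grd_tQ_mul (n : ℕ) (c s : K) (hc : ∀ q ∈ Q n, c * q ∈ Q n) (hs : s ∈ tQ t Q n) :
    c * s ∈ tQ t Q n := by
  obtain ⟨b, hb, rfl⟩ := hs
  refine ⟨fun j => c * b j, fun j => hc _ (hb j), ?_⟩
  rw [Finset.mul_sum]
  exact Finset.sum_congr rfl fun j _ => mul_left_comm _ _ _

theorem aa_coeff (hQ : ∀ n j, ∀ b ∈ Q n, t j * b ∈ Q (n + 1)) (a : K[X]) (ha : a ∈ AA k t) (m i : ℕ) (q : K)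
    (hq : q ∈ Q i) : a.coeff m * q ∈ Q (i + m) ∧ (1 ≤ m → a.coeff m * q ∈ tQ t Q (i + m - 1)) := by
  have key : ∀ (m i : ℕ) (q : K), q ∈ Q i →
      a.coeff m * q ∈ Q (i + m) ∧ (1 ≤ m → a.coeff m * q ∈ tQ t Q (i + m - 1)) := by
    unfold AA at ha
    induction ha using Algebra.adjoin_induction with
    | mem x hx =>
      obtain ⟨j, rfl⟩ := hx
      intro m i q hq
      rw [coeff_monomial]
      split_ifs with h
      · subst h
        exact ⟨hQ i j q hq, fun _ => grd_tQ_single _ j q hq⟩
      · rw [zero_mul]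
        exact ⟨Submodule.zero_mem _, fun _ => Submodule.zero_mem _⟩
    | algebraMap c =>
      intro m i q hq
      rw [Polynomial.algebraMap_apply, coeff_C]
      split_ifs with h
      · subst h
        refine ⟨?_, fun h => absurd h (by norm_num)⟩
        rw [← Algebra.smul_def]
        exact Submodule.smul_mem _ c hq
      · rw [zero_mul]
        exact ⟨Submodule.zero_mem _, fun _ => Submodule.zero_mem _⟩
    | add x y hx hy ihx ihy =>
      intro m i q hq
      rw [coeff_add, add_mul]
      exact ⟨Submodule.add_mem _ (ihx m i q hq).1 (ihy m i q hq).1,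
        fun h => Submodule.add_mem _ ((ihx m i q hq).2 h) ((ihy m i q hq).2 h)⟩
    | mul x y hx hy ihx ihy =>
      intro m i q hq
      rw [coeff_mul, Finset.sum_mul]
      have hterm : ∀ u ∈ Finset.HasAntidiagonal.antidiagonal m, (x.coeff u.1 * y.coeff u.2 * q) ∈ Q (i + m) ∧
          (1 ≤ m → (x.coeff u.1 * y.coeff u.2 * q) ∈ tQ t Q (i + m - 1)) := by
        rintro ⟨m₁, m₂⟩ hu
        have hu' : m₁ + m₂ = m := Finset.HasAntidiagonal.mem_antidiagonal.1 hu
        have h1 := (ihy m₂ i q hq).1
        have h2 := ihx m₁ (i + m₂) _ h1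
        show x.coeff m₁ * y.coeff m₂ * q ∈ Q (i + m) ∧
          (1 ≤ m → x.coeff m₁ * y.coeff m₂ * q ∈ tQ t Q (i + m - 1))
        rw [mul_assoc]
        refine ⟨?_, fun hm => ?_⟩
        · have h3 := h2.1
          rwa [show i + m₂ + m₁ = i + m by omega] at h3
        · rcases Nat.eq_zero_or_pos m₁ with h0 | h0
          · subst h0
            have h4 : m₂ = m := by omega
            subst h4
            refine grd_tQ_mul _ _ _ ?_ ((ihy m₂ i q hq).2 hm)
            intro q' hq'
            exact (ihx 0 _ q' hq').1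
          · have h3 := h2.2 h0
            rwa [show i + m₂ + m₁ - 1 = i + m - 1 by omega] at h3
      exact ⟨Submodule.sum_mem _ fun u hu => (hterm u hu).1,
        fun h => Submodule.sum_mem _ fun u hu => (hterm u hu).2 h⟩
  exact key m i q hq

variable (k t) in
theorem aa_fin (m : ℕ) : FiniteDimensional k ((AA k t).toSubmodule.map ((lcoeff K m).restrictScalars k)) := by
  let W : Submodule k K := Submodule.span k (Set.range t)
  have hW : (W ^ m).FG := Submodule.FG.pow (Submodule.fg_span (Set.finite_range t)) m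
  have : FiniteDimensional k ↥(W ^ m) := Module.Finite.iff_fg.2 hW
  refine Submodule.finiteDimensional_of_le (S₂ := W ^ m) ?_
  rintro _ ⟨a, ha, rfl⟩
  show a.coeff m ∈ W ^ m
  have ha' : a ∈ Algebra.adjoin k (Set.range fun j => (monomial 1 (t j) : K[X])) := ha
  clear ha this hW
  revert m
  induction ha' using Algebra.adjoin_induction with
  | mem x hx =>
    obtain ⟨j, rfl⟩ := hx
    intro m
    rw [coeff_monomial]
    split_ifs with h
    · subst h
      rw [pow_one]
      exact Submodule.subset_span ⟨j, rfl⟩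
    · exact Submodule.zero_mem _
  | algebraMap c =>
    intro m
    rw [Polynomial.algebraMap_apply, coeff_C]
    split_ifs with h
    · subst h
      rw [pow_zero]
      exact Submodule.algebraMap_mem c
    · exact Submodule.zero_mem _
  | add x y hx hy ihx ihy =>
    intro m
    rw [coeff_add]
    exact Submodule.add_mem _ (ihx m) (ihy m)
  | mul x y hx hy ihx ihy =>
    intro m
    rw [coeff_mul]
    refine Submodule.sum_mem _ fun u hu => ?_
    have hu' : u.1 + u.2 = m := Finset.HasAntidiagonal.mem_antidiagonal.1 hu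
    rw [← hu', pow_add]
    exact Submodule.mul_mem_mul (ihx _) (ihy _)

/-- the module of the polynomials with coefficients in `Q n` -/
noncomputable def gM (hQ : ∀ n j, ∀ b ∈ Q n, t j * b ∈ Q (n + 1)) : Submodule (AA k t) K[X] where
  carrier := {p | ∀ n, p.coeff n ∈ Q n}
  zero_mem' := fun n => by
    rw [coeff_zero]
    exact (Q n).zero_mem
  add_mem' := fun ha hb n => by
    rw [coeff_add]
    exact (Q n).add_mem (ha n) (hb n)
  smul_mem' := fun a p hp n => by
    have h1 : a • p = (a : K[X]) * p := rfl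
    rw [h1, coeff_mul]
    refine Submodule.sum_mem _ fun x hx => ?_
    have h2 := (aa_coeff hQ a.1 a.2 x.1 x.2 (p.coeff x.2) (hp x.2)).1
    have h3 : x.1 + x.2 = n := Finset.HasAntidiagonal.mem_antidiagonal.1 hx
    rwa [add_comm, h3] at h2

theorem mem_gM (hQ : ∀ n j, ∀ b ∈ Q n, t j * b ∈ Q (n + 1)) (p : K[X]) : p ∈ gM hQ ↔ ∀ n, p.coeff n ∈ Q n :=
  Iff.rfl

theorem grd (hQ : ∀ n j, ∀ b ∈ Q n, t j * b ∈ Q (n + 1)) (hfin : Module.Finite (AA k t) (gM hQ)) :
    (∀ n, FiniteDimensional k (Q n)) ∧ ∃ n₀, ∀ n ≥ n₀, Q (n + 1) ≤ tQ t Q n := by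
  classical
  obtain ⟨G, hG⟩ : (gM hQ).FG := Module.Finite.iff_fg.1 hfin
  have hGm : ∀ g ∈ G, ∀ n, g.coeff n ∈ Q n := by
    intro g hg
    have h1 : g ∈ gM hQ := by
      rw [← hG]
      exact Submodule.subset_span (Finset.mem_coe.2 hg)
    exact h1
  have key : ∀ (m : ℕ) (s : K), s ∈ Q m → ∃ f : K[X] → AA k t,
      s = ∑ g ∈ G, ∑ u ∈ Finset.HasAntidiagonal.antidiagonal m, (f g : K[X]).coeff u.1 * g.coeff u.2 := by
    intro m s hs
    have h1 : (monomial m s : K[X]) ∈ gM hQ := by
      intro n
      rw [coeff_monomial]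
      split_ifs with h
      · subst h
        exact hs
      · exact Submodule.zero_mem _
    rw [← hG, Submodule.mem_span_finset] at h1
    obtain ⟨f, -, hf⟩ := h1
    refine ⟨f, ?_⟩
    have h2 : (∑ g ∈ G, f g • g : K[X]).coeff m = s := by
      rw [hf, coeff_monomial, if_pos rfl]
    rw [← h2, finsetSum_coeff]
    refine Finset.sum_congr rfl fun g _ => ?_
    have h3 : f g • g = (f g : K[X]) * g := rfl
    rw [h3, coeff_mul]
  refine ⟨?_, ?_⟩
  · intro n
    let E : ℕ → Submodule k K := fun m =>
      (AA k t).toSubmodule.map ((lcoeff K m).restrictScalars k)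
    have hE : ∀ m, FiniteDimensional k (E m) := fun m => aa_fin k t m
    let F : Submodule k K := G.sup fun g => (Finset.HasAntidiagonal.antidiagonal n).sup fun u =>
      (E u.1).map (LinearMap.mulRight k (g.coeff u.2))
    have h1 : ∀ g : K[X], FiniteDimensional k ↥((Finset.HasAntidiagonal.antidiagonal n).sup fun u =>
        (E u.1).map (LinearMap.mulRight k (g.coeff u.2))) := fun g =>
      Submodule.finiteDimensional_finset_sup _ _
    have h2 : FiniteDimensional k F := Submodule.finiteDimensional_finset_sup _ _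
    refine Submodule.finiteDimensional_of_le (S₂ := F) ?_
    intro s hs
    obtain ⟨f, hf⟩ := key n s hs
    rw [hf]
    refine Submodule.sum_mem _ fun g hg => Submodule.sum_mem _ fun u hu => ?_
    have h3 : ((Finset.HasAntidiagonal.antidiagonal n).sup fun u =>
        (E u.1).map (LinearMap.mulRight k (g.coeff u.2))) ≤ F :=
      Finset.le_sup (f := fun g : K[X] => (Finset.HasAntidiagonal.antidiagonal n).sup fun u =>
        (E u.1).map (LinearMap.mulRight k (g.coeff u.2))) hg
    have h4 : (E u.1).map (LinearMap.mulRight k (g.coeff u.2)) ≤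
        ((Finset.HasAntidiagonal.antidiagonal n).sup fun u =>
        (E u.1).map (LinearMap.mulRight k (g.coeff u.2))) :=
      Finset.le_sup (f := fun u : ℕ × ℕ =>
        (E u.1).map (LinearMap.mulRight k (g.coeff u.2))) hu
    exact h3 (h4 ⟨(f g : K[X]).coeff u.1, ⟨(f g : K[X]), (f g).2, rfl⟩, rfl⟩)
  · refine ⟨G.sup natDegree, fun n hn s hs => ?_⟩
    obtain ⟨f, hf⟩ := key (n + 1) s hs
    rw [hf]
    refine Submodule.sum_mem _ fun g hg => Submodule.sum_mem _ fun u hu => ?_
    have hu' : u.1 + u.2 = n + 1 := Finset.HasAntidiagonal.mem_antidiagonal.1 hu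
    have h1 : g.natDegree ≤ G.sup natDegree := Finset.le_sup hg
    by_cases h2 : g.natDegree < u.2
    · rw [coeff_eq_zero_of_natDegree_lt h2, mul_zero]
      exact Submodule.zero_mem _
    · have h3 := (aa_coeff hQ (f g : K[X]) (f g).2 u.1 u.2 (g.coeff u.2) (hGm g hg u.2)).2
        (by omega)
      rwa [show u.2 + u.1 - 1 = n by omega] at h3

end Pool.Agent.H24.TK
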