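import Pool.Agent.H83.TK.SubE

/-!
# THEOREM K (MP_e49dc9_ag), chapter T2: the first cohomology group of a divisor, definitions

`PP M`: the functions `a : X.P → K` which are locally constant modulo the sheaf of `M` (sections of `K / M`).
`PZ M`: those which are in the sheaf of `M` at every point.  `PC X`: the constants.
`HH M = PP M / (PZ M + PC X)`: this is `H¹(X, M)` (the sheaf `K` is constant).  `h1 M` its dimension.
`hmul f`: multiplication by a section `f` of `M' - M`.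

[H24 TK HDef]  Proofs.  `mem_nhd`: an element of `O x` is in `O y` for `y` near `x` (`IsVar.chart`, `IsVar.frac`: `b * s`, `s` in
`sec U`, `s` a unit at `x`; `IsVar.basic` / `IsVar.op`).  `pz_le`: `a x * M.eq x ∈ O x`; near `x` it is in `O y`, and
`M.eq y / M.eq x ∈ O y` (`Cart.loc`), so `a x * M.eq y ∈ O y`, and `a y * M.eq y ∈ O y`.  `pc_le`: the difference is `0`.
`pp_mul`, `pz_mul`: multiply by `f * (M'.eq y / M.eq y) ∈ O y`.
-/

set_option autoImplicit false

namespace Pool.Agent.H24.TK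

open Pool.Agent.H54.RV Pool.Agent.H83.TU Pool.Agent.H83.TK

variable {k K : Type} [Field k] [Field K] [Algebra k K] {X : Mod k K}

/-- functions which are locally constant modulo the sheaf of `M` -/
def PP (M : Cart X) : Submodule k (X.P → K) where
  carrier := {a | ∀ x, ∃ U : Set X.P, IsOpen U ∧ x ∈ U ∧ ∀ y ∈ U, (a y - a x) * M.eq y ∈ X.O y}
  zero_mem' := fun x => ⟨Set.univ, isOpen_univ, Set.mem_univ x, fun y _ => by
    have h : ((0 : X.P → K) y - (0 : X.P → K) x) * M.eq y = 0 := by simp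
    rw [h]
    exact (X.O y).zero_mem⟩
  add_mem' := by
    intro a b ha hb x
    obtain ⟨U, hU, hx, h1⟩ := ha x
    obtain ⟨V, hV, hx', h2⟩ := hb x
    refine ⟨U ∩ V, hU.inter hV, ⟨hx, hx'⟩, fun y hy => ?_⟩
    have h : ((a + b) y - (a + b) x) * M.eq y = (a y - a x) * M.eq y + (b y - b x) * M.eq y := by
      rw [Pi.add_apply, Pi.add_apply]
      ring
    rw [h]
    exact (X.O y).add_mem (h1 y hy.1) (h2 y hy.2)
  smul_mem' := by
    intro c a ha x
    obtain ⟨U, hU, hx, h1⟩ := ha x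
    refine ⟨U, hU, hx, fun y hy => ?_⟩
    have h : ((c • a) y - (c • a) x) * M.eq y = c • ((a y - a x) * M.eq y) := by
      rw [Pi.smul_apply, Pi.smul_apply, ← smul_sub, smul_mul_assoc]
    rw [h]
    exact (X.O y).smul_mem (h1 y hy) c

/-- functions with values in the sheaf of `M` -/
def PZ (M : Cart X) : Submodule k (X.P → K) where
  carrier := {a | ∀ x, a x * M.eq x ∈ X.O x}
  zero_mem' := fun x => by
    rw [Pi.zero_apply, zero_mul]
    exact (X.O x).zero_mem
  add_mem' := fun {a b} ha hb x => by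
    rw [Pi.add_apply, add_mul]
    exact (X.O x).add_mem (ha x) (hb x)
  smul_mem' := fun c a ha x => by
    rw [Pi.smul_apply, smul_mul_assoc]
    exact (X.O x).smul_mem (ha x) c

variable (X) in
/-- the constants -/
def PC : Submodule k (X.P → K) where
  carrier := {a | ∃ c : K, a = fun _ => c}
  zero_mem' := ⟨0, rfl⟩
  add_mem' := by
    rintro _ _ ⟨c, rfl⟩ ⟨d, rfl⟩
    exact ⟨c + d, rfl⟩
  smul_mem' := by
    rintro r _ ⟨c, rfl⟩
    exact ⟨r • c, rfl⟩

theorem mem_PP (M : Cart X) (a : X.P → K) :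
    a ∈ PP M ↔ ∀ x, ∃ U : Set X.P, IsOpen U ∧ x ∈ U ∧ ∀ y ∈ U, (a y - a x) * M.eq y ∈ X.O y := Iff.rfl

theorem mem_PZ (M : Cart X) (a : X.P → K) : a ∈ PZ M ↔ ∀ x, a x * M.eq x ∈ X.O x := Iff.rfl

theorem mem_PC (a : X.P → K) : a ∈ PC X ↔ ∃ c : K, a = fun _ => c := Iff.rfl

/-- the functions which are zero in the first cohomology group -/
def PB (M : Cart X) : Submodule k (X.P → K) := PZ M ⊔ PC X

theorem mem_PB (M : Cart X) (a : X.P → K) :
    a ∈ PB M ↔ ∃ c : K, ∀ x, (a x - c) * M.eq x ∈ X.O x := by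
  constructor
  · intro h
    obtain ⟨b, hb, _, ⟨c, rfl⟩, rfl⟩ := Submodule.mem_sup.1 h
    refine ⟨c, fun x => ?_⟩
    rw [Pi.add_apply, add_sub_cancel_right]
    exact hb x
  · rintro ⟨c, hc⟩
    refine Submodule.mem_sup.2 ⟨fun x => a x - c, hc, fun _ => c, ⟨c, rfl⟩, ?_⟩
    funext x
    exact sub_add_cancel (a x) c

/-- the first cohomology group of `M` -/
abbrev HH (M : Cart X) : Type := PP M ⧸ (PB M).comap (PP M).subtype

/-- its dimension -/
noncomputable def h1 (M : Cart X) : ℕ := Module.finrank k (HH M)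

theorem mem_nhd (hX : IsVar X) (x : X.P) (b : K) (hb : b ∈ X.O x) :
    ∃ U : Set X.P, IsOpen U ∧ x ∈ U ∧ ∀ y ∈ U, b ∈ X.O y := by
  obtain ⟨U, hU, hx⟩ := hX.chart x
  obtain ⟨s, hs, hsu, hbs⟩ := hX.frac U x hU hx b hb
  have hs' : ∀ y ∈ U, s ∈ X.O y := fun y hy => by
    have h := Algebra.mem_iInf.1 hs y
    exact Algebra.mem_iInf.1 h hy
  have hbs' : ∀ y ∈ U, b * s ∈ X.O y := fun y hy => by
    have h := Algebra.mem_iInf.1 hbs y
    exact Algebra.mem_iInf.1 h hy
  refine ⟨{y | y ∈ U ∧ Un (X.O y) s}, hX.op _ (hX.basic U s hU hs'), ⟨hx, hsu⟩, ?_⟩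
  rintro y ⟨hy, h0, -, hi⟩
  have h := (X.O y).mul_mem (hbs' y hy) hi
  rwa [mul_assoc, mul_inv_cancel₀ h0, mul_one] at h

theorem pz_le (hX : IsVar X) (M : Cart X) : PZ M ≤ PP M := by
  intro a ha x
  obtain ⟨U, hU, hx, h1⟩ := mem_nhd hX x _ (ha x)
  obtain ⟨V, hV, hx', h2⟩ := M.loc x
  refine ⟨U ∩ V, hU.inter hV, ⟨hx, hx'⟩, fun y hy => ?_⟩
  have h3 := (X.O y).mul_mem (h1 y hy.1) (h2 y hy.2).2.1
  have h4 : a x * M.eq x * (M.eq y / M.eq x) = a x * M.eq y := by
    have := M.ne x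
    field_simp
  rw [h4] at h3
  rw [sub_mul]
  exact (X.O y).sub_mem (ha y) h3

theorem pc_le (M : Cart X) : PC X ≤ PP M := by
  rintro _ ⟨c, rfl⟩ x
  refine ⟨Set.univ, isOpen_univ, Set.mem_univ x, fun y _ => ?_⟩
  rw [sub_self, zero_mul]
  exact (X.O y).zero_mem

/-- multiplication of functions by `f` -/
def fmul (X : Mod k K) (f : K) : (X.P → K) →ₗ[k] (X.P → K) where
  toFun a := fun x => f * a x
  map_add' a b := by
    funext x
    exact mul_add _ _ _
  map_smul' c a := by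
    funext x
    exact mul_smul_comm _ _ _

theorem pp_mul (M M' : Cart X) (f : K) (hf : ∀ x, f * (M'.eq x / M.eq x) ∈ X.O x) (a : X.P → K) (ha : a ∈ PP M) :
    fmul X f a ∈ PP M' := by
  intro x
  obtain ⟨U, hU, hx, h1⟩ := ha x
  refine ⟨U, hU, hx, fun y hy => ?_⟩
  have h2 := (X.O y).mul_mem (hf y) (h1 y hy)
  have h3 : f * (M'.eq y / M.eq y) * ((a y - a x) * M.eq y) = (f * a y - f * a x) * M'.eq y := by
    have := M.ne y
    field_simp
  rw [h3] at h2
  exact h2

theorem pz_mul (M M' : Cart X) (f : K) (hf : ∀ x, f * (M'.eq x / M.eq x) ∈ X.O x) (a : X.P → K) (ha : a ∈ PZ M) :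
    fmul X f a ∈ PZ M' := by
  intro y
  have h2 := (X.O y).mul_mem (hf y) (ha y)
  have h3 : f * (M'.eq y / M.eq y) * (a y * M.eq y) = (f * a y) * M'.eq y := by
    have := M.ne y
    field_simp
  rw [h3] at h2
  exact h2

theorem pb_mul (M M' : Cart X) (f : K) (hf : ∀ x, f * (M'.eq x / M.eq x) ∈ X.O x) (a : X.P → K) (ha : a ∈ PB M) :
    fmul X f a ∈ PB M' := by
  obtain ⟨c, hc⟩ := (mem_PB M a).1 ha
  refine (mem_PB M' _).2 ⟨f * c, fun y => ?_⟩
  have h2 := (X.O y).mul_mem (hf y) (hc y)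
  have h3 : f * (M'.eq y / M.eq y) * ((a y - c) * M.eq y) = (f * a y - f * c) * M'.eq y := by
    have := M.ne y
    field_simp
  rw [h3] at h2
  exact h2

/-- multiplication by a section of `M' - M` -/
noncomputable def hmul (M M' : Cart X) (f : K) (hf : ∀ x, f * (M'.eq x / M.eq x) ∈ X.O x) : HH M →ₗ[k] HH M' :=
  Submodule.mapQ _ _ ((fmul X f).restrict (p := PP M) (q := PP M') fun a ha => pp_mul M M' f hf a ha)
    (by
      intro a ha
      exact pb_mul M M' f hf a.1 ha)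

end Pool.Agent.H24.TK
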