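import Pool.Agent.H24.TK.HDef

/-!
# THEOREM K (MP_e49dc9_ag), chapter T2: the exact sequence of a prime divisor

[H24 TK HEx]  `SPr X z S`: the closure of `z` is the effective Cartier divisor `S`.  `M` a divisor, `resD hX z M` its
restriction, `w` a section of it.  `Ad w a`: the function `a` consists of local lifts of `w`:
`a x * M.eq x ∈ O x` for all `x`, and `rs z (a x * M.eq z) = w` if `z ⤳ x`.

* `ad_exists`: for `z ⤳ x` choose `b ∈ O x` with `rs z b = w * (resD hX z M).eq x` (`subO_iff`), `a x := b / M.eq x`;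
  `a x * M.eq z = b * (M.eq x / M.eq z)⁻¹` (`quo_un`, `rs_mul`, `rs_inv`, `resD_eq`); `a x := 0` for the other `x`.
* `ad_pp`: `Ad w a → a ∈ PP (M * S⁻¹)`.  At a point `x` with `¬ z ⤳ x` there is an open neighbourhood which does not meet the
  closure of `z` (`not_specializes_iff_exists_open` gives an open `V ∋ x` with `z ∉ V`; `z ⤳ y`, `y ∈ V` would give `z ∈ V`); there
  `S.eq y` is a unit (`SPr.un`) and `a x * M.eq y ∈ O y` near `x` (`mem_nhd`, `Cart.loc`).  At `x` with `z ⤳ x`: near `x` again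
  `(a y - a x) * M.eq y ∈ O y`; if `z ⤳ y` its residue class at `z` (up to the unit `M.eq y / M.eq z`) is `w - w = 0`, so it is
  divisible by `S.eq y` (`SPr.mem_iff`); if not, `S.eq y` is a unit.
* `ad_zero`: `Ad 0 a ↔ a ∈ PZ (M * S⁻¹)` (the same computation, `SPr.mem_iff`).
* `ad_add`, `ad_smul`.
* `exists_delta`: `δ w :=` the class of an adapted `a` (choice; well defined and linear by `ad_add`, `ad_zero`).
  kernel: if the class of `a` is `0`, `(a x - c) * (M * S⁻¹).eq x ∈ O x` for all `x` and a constant `c`; so `c * M.eq x ∈ O x`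
  (`S` effective), `c ∈ secL M 1`, and `fun x => a x - c` is adapted to `0`, the constant `c` is adapted to `w`: `resS c = w`.
  Conversely the constant `c` is adapted to `resS c` (`rs_sec`).  range: the class of an adapted `a` is `0` in `HH M` as `a ∈ PZ M`.
  Conversely let `a ∈ PP (M * S⁻¹)` with `(a x - c) * M.eq x ∈ O x` for all `x`; `a' := a - c`, `w := rs z (a' z * M.eq z)`; for
  `z ⤳ x` the neighbourhood of `x` in `PP` contains `z`: `(a' z - a' x) * (M * S⁻¹).eq z ∈ O z`, so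
  `rs z (a' x * M.eq z) = w` (`S.eq z` is not a unit at `z`: `SPr.nun`), and `w * (resD hX z M).eq x = rs z (a' x * M.eq x) ∈ O x`.
* `coker_le`, `inj_of_surj`, `fd_step`: linear algebra.
-/

set_option autoImplicit false

namespace Pool.Agent.H24.TK

open Pool.Agent.H54.RV Pool.Agent.H83.TU Pool.Agent.H83.TK

variable {k K : Type} [Field k] [Field K] [Algebra k K] {X : Mod k K}

/-- the sheaf of `M - S` is contained in the sheaf of `M` -/
theorem inc_S {z : X.P} {S : Cart X} (hS : SPr X z S) (M : Cart X) (x : X.P) :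
    (1 : K) * (M.eq x / (M * S⁻¹).eq x) ∈ X.O x := by
  have h1 : (1 : K) * (M.eq x / (M * S⁻¹).eq x) = S.eq x := by
    rw [mul_eq, inv_eq]
    have := M.ne x
    have := S.ne x
    field_simp
  rw [h1]
  exact hS.eff x

/-- the function `a` consists of local lifts of `w` -/
def Ad (M : Cart X) (z : X.P) (w : X.kap z) (a : X.P → K) : Prop :=
  ∀ x, a x * M.eq x ∈ X.O x ∧ (z ⤳ x → X.rs z (a x * M.eq z) = w)

/-- the unit `M.eq z / M.eq x` -/
private theorem hex_un (M : Cart X) {z x : X.P} (h : z ⤳ x) : Un (X.O z) (M.eq z / M.eq x) := by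
  have h1 := un_inv (quo_un M z x h)
  rwa [inv_div] at h1

/-- change of the equation at `z` -/
private theorem hex_mem (hX : IsVar X) (M : Cart X) {z x : X.P} (h : z ⤳ x) {c : K}
    (hc : c * M.eq x ∈ X.O x) : c * M.eq z ∈ X.O z := by
  have h1 : c * M.eq z = c * M.eq x * (M.eq z / M.eq x) := by
    have := M.ne x
    field_simp
  rw [h1]
  exact (X.O z).mul_mem (hX.spec z x h hc) (hex_un M h).2.1

/-- the residue classes of `c * M.eq x` and `c * M.eq z` -/
private theorem hex_rs (hX : IsVar X) (M : Cart X) {z x : X.P} (h : z ⤳ x) {c : K}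
    (hc : c * M.eq z ∈ X.O z) :
    X.rs z (c * M.eq x) = X.rs z (c * M.eq z) * X.rs z (M.eq x / M.eq z) := by
  rw [← rs_mul z hc (quo_un M z x h).2.1]
  congr 1
  have := M.ne z
  field_simp

theorem ad_exists (hX : IsVar X) (M : Cart X) (z : X.P) (w : X.kap z) (hw : Sec (resD hX z M) 1 w) :
    ∃ a, Ad M z w a := by
  classical
  have h1 : ∀ x : X.P, ∃ c : K, c * M.eq x ∈ X.O x ∧ (z ⤳ x → X.rs z (c * M.eq z) = w) := by
    intro x
    by_cases h : z ⤳ x
    · have h2 := hw ⟨x, h⟩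
      rw [pow_one, resD_eq] at h2
      obtain ⟨b, hb, hbw⟩ := (subO_iff hX h _).1 h2
      have h3 : b / M.eq x * M.eq x = b := div_mul_cancel₀ _ (M.ne x)
      have h4 : b / M.eq x * M.eq x ∈ X.O x := by rwa [h3]
      refine ⟨b / M.eq x, h4, fun _ => ?_⟩
      have h5 := hex_rs hX M h (hex_mem hX M h h4)
      rw [h3, hbw] at h5
      have h6 : X.rs z (M.eq x / M.eq z) ≠ 0 := (rs_ne z (quo_un M z x h).2.1).2 (quo_un M z x h)
      exact (mul_right_cancel₀ h6 h5).symm
    · exact ⟨0, by rw [zero_mul]; exact (X.O x).zero_mem, fun h' => absurd h' h⟩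
  choose a ha using h1
  exact ⟨a, ha⟩

theorem ad_pp (hX : IsVar X) {z : X.P} {S : Cart X} (hS : SPr X z S) (M : Cart X) (w : X.kap z) (a : X.P → K)
    (ha : Ad M z w a) : a ∈ PP (M * S⁻¹) := by
  intro x
  obtain ⟨U1, hU1, hx1, h1⟩ := M.loc x
  obtain ⟨U2, hU2, hx2, h2⟩ := mem_nhd hX x _ (ha x).1
  obtain ⟨U3, hU3, hx3, h3⟩ : ∃ V : Set X.P, IsOpen V ∧ x ∈ V ∧ ∀ y ∈ V, z ⤳ y → z ⤳ x := by
    by_cases h : z ⤳ x
    · exact ⟨Set.univ, isOpen_univ, Set.mem_univ x, fun _ _ _ => h⟩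
    · obtain ⟨V, hV, hxV, hzV⟩ := not_specializes_iff_exists_open.1 h
      exact ⟨V, hV, hxV, fun y hy hzy => absurd (hzy.mem_open hV hy) hzV⟩
  refine ⟨U1 ∩ U2 ∩ U3, (hU1.inter hU2).inter hU3, ⟨⟨hx1, hx2⟩, hx3⟩, fun y hy => ?_⟩
  have h4 : a x * M.eq y ∈ X.O y := by
    have h5 : a x * M.eq y = a x * M.eq x * (M.eq y / M.eq x) := by
      have := M.ne x
      field_simp
    rw [h5]
    exact (X.O y).mul_mem (h2 y hy.1.2) (h1 y hy.1.1).2.1
  have h5 : (a y - a x) * M.eq y ∈ X.O y := by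
    rw [sub_mul]
    exact (X.O y).sub_mem (ha y).1 h4
  have h6 : (a y - a x) * (M * S⁻¹).eq y = (a y - a x) * M.eq y / S.eq y := by
    rw [mul_eq, inv_eq]
    ring
  rw [h6, hS.mem_iff hX y h5]
  intro hzy
  have hzx := h3 y hy.2 hzy
  have h7 := (ha y).2 hzy
  have h8 := (ha x).2 hzx
  have h9 : a y * M.eq z ∈ X.O z := hex_mem hX M hzy (ha y).1
  have h10 : a x * M.eq z ∈ X.O z := hex_mem hX M hzx (ha x).1
  have h11 : (a y - a x) * M.eq z ∈ X.O z := by
    rw [sub_mul]
    exact (X.O z).sub_mem h9 h10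
  rw [← rs_ne z (hX.spec z y hzy h5), not_not, hex_rs hX M hzy h11]
  have h12 : X.rs z ((a y - a x) * M.eq z) = 0 := by
    have h13 : a y * M.eq z = (a y - a x) * M.eq z + a x * M.eq z := by ring
    have h14 := congrArg (X.rs z) h13
    rw [rs_add z h11 h10, h7, h8] at h14
    exact right_eq_add.1 h14
  rw [h12, zero_mul]

theorem ad_zero (hX : IsVar X) {z : X.P} {S : Cart X} (hS : SPr X z S) (M : Cart X) (a : X.P → K) :
    Ad M z 0 a ↔ a ∈ PZ (M * S⁻¹) := by
  rw [mem_PZ]
  refine forall_congr' fun x => ?_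
  have h6 : a x * (M * S⁻¹).eq x = a x * M.eq x / S.eq x := by
    rw [mul_eq, inv_eq]
    ring
  rw [h6]
  constructor
  · rintro ⟨h1, h2⟩
    rw [hS.mem_iff hX x h1]
    intro hzx
    rw [← rs_ne z (hX.spec z x hzx h1), not_not, hex_rs hX M hzx (hex_mem hX M hzx h1), h2 hzx,
      zero_mul]
  · intro h
    have h1 : a x * M.eq x ∈ X.O x := by
      have h2 := (X.O x).mul_mem h (hS.eff x)
      rwa [div_mul_cancel₀ _ (S.ne x)] at h2
    refine ⟨h1, fun hzx => ?_⟩
    have h3 := (hS.mem_iff hX x h1).1 h hzx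
    rw [← rs_ne z (hX.spec z x hzx h1), not_not, hex_rs hX M hzx (hex_mem hX M hzx h1)] at h3
    exact (mul_eq_zero.1 h3).resolve_right
      ((rs_ne z (quo_un M z x hzx).2.1).2 (quo_un M z x hzx))

private theorem ad_add (hX : IsVar X) (M : Cart X) {z : X.P} {w w' : X.kap z} {a a' : X.P → K}
    (h : Ad M z w a) (h' : Ad M z w' a') : Ad M z (w + w') (a + a') := by
  intro x
  rw [Pi.add_apply, add_mul, add_mul]
  refine ⟨(X.O x).add_mem (h x).1 (h' x).1, fun hzx => ?_⟩
  rw [rs_add z (hex_mem hX M hzx (h x).1) (hex_mem hX M hzx (h' x).1), (h x).2 hzx, (h' x).2 hzx]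

private theorem ad_smul (hX : IsVar X) (M : Cart X) {z : X.P} {w : X.kap z} {a : X.P → K} (c : k)
    (h : Ad M z w a) : Ad M z (c • w) (c • a) := by
  intro x
  rw [Pi.smul_apply, smul_mul_assoc, smul_mul_assoc]
  refine ⟨(X.O x).smul_mem (h x).1 c, fun hzx => ?_⟩
  rw [Algebra.smul_def, rs_mul z ((X.O z).algebraMap_mem c) (hex_mem hX M hzx (h x).1), rs_alg,
    ← Algebra.smul_def, (h x).2 hzx]

private theorem ad_sub (hX : IsVar X) (M : Cart X) {z : X.P} {w w' : X.kap z} {a a' : X.P → K}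
    (h : Ad M z w a) (h' : Ad M z w' a') : Ad M z (w - w') (a - a') := by
  have h1 := ad_add hX M h (ad_smul hX M (-1 : k) h')
  have h2 : (-1 : k) • w' = -w' := by
    rw [Algebra.smul_def, map_neg, map_one, neg_one_mul]
  have h3 : (-1 : k) • a' = -a' := by
    rw [neg_smul, one_smul]
  rwa [h2, h3, ← sub_eq_add_neg, ← sub_eq_add_neg] at h1

private theorem hex_mk (N : Cart X) {a b : X.P → K} (ha : a ∈ PP N) (hb : b ∈ PP N)
    (h : a - b ∈ PB N) : (Submodule.Quotient.mk ⟨a, ha⟩ : HH N) = Submodule.Quotient.mk ⟨b, hb⟩ := by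
  rw [Submodule.Quotient.eq]
  exact h

private theorem hex_mk0 (N : Cart X) {a : X.P → K} (ha : a ∈ PP N) :
    (Submodule.Quotient.mk ⟨a, ha⟩ : HH N) = 0 ↔ a ∈ PB N := by
  rw [Submodule.Quotient.mk_eq_zero]
  rfl

theorem exists_delta (hX : IsVar X) {z : X.P} {S : Cart X} (hS : SPr X z S) (M : Cart X) :
    ∃ δ : secL (resD hX z M) 1 →ₗ[k] HH (M * S⁻¹),
      LinearMap.ker δ = LinearMap.range (resS hX z M 1) ∧
        LinearMap.range δ = LinearMap.ker (hmul (M * S⁻¹) M 1 (inc_S hS M)) := by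
  classical
  have hex : ∀ w : secL (resD hX z M) 1, ∃ a, Ad M z w.1 a := fun w => ad_exists hX M z w.1 w.2
  choose A hA using hex
  have hind : ∀ (w : secL (resD hX z M) 1) (a : X.P → K) (ha : Ad M z w.1 a),
      (Submodule.Quotient.mk ⟨A w, ad_pp hX hS M w.1 _ (hA w)⟩ : HH (M * S⁻¹)) =
        Submodule.Quotient.mk ⟨a, ad_pp hX hS M w.1 _ ha⟩ := by
    intro w a ha
    refine hex_mk _ _ _ ?_
    have h1 := ad_sub hX M (hA w) ha
    rw [sub_self] at h1
    exact Submodule.mem_sup_left ((ad_zero hX hS M _).1 h1)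
  refine ⟨{ toFun := fun w => Submodule.Quotient.mk ⟨A w, ad_pp hX hS M w.1 _ (hA w)⟩
            map_add' := fun w w' => ?_
            map_smul' := fun c w => ?_ }, ?_, ?_⟩
  · exact hind (w + w') (A w + A w') (ad_add hX M (hA w) (hA w'))
  · exact hind (c • w) (c • A w) (ad_smul hX M c (hA w))
  · ext w
    rw [LinearMap.mem_ker, LinearMap.mem_range]
    show (Submodule.Quotient.mk ⟨A w, ad_pp hX hS M w.1 _ (hA w)⟩ : HH (M * S⁻¹)) = 0 ↔ _
    rw [hex_mk0, mem_PB]
    constructor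
    · rintro ⟨c, hc⟩
      have h1 : Ad M z 0 (A w - fun _ => c) := (ad_zero hX hS M _).2 hc
      have h2 := ad_sub hX M (hA w) h1
      rw [sub_zero, sub_sub_cancel] at h2
      have h3 : Sec M 1 c := fun x => by
        rw [pow_one]
        exact (h2 x).1
      refine ⟨⟨c, h3⟩, Subtype.ext ?_⟩
      rw [resS_coe]
      show X.rs z (c * M.eq z ^ 1) = w.1
      rw [pow_one]
      exact (h2 z).2 specializes_rfl
    · rintro ⟨c, hc⟩
      refine ⟨c.1, ?_⟩
      have h1 : Ad M z w.1 (fun _ => c.1) := by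
        intro x
        have h2 := c.2 x
        rw [pow_one] at h2
        refine ⟨h2, fun _ => ?_⟩
        rw [← hc, resS_coe, pow_one]
      have h2 := ad_sub hX M (hA w) h1
      rw [sub_self] at h2
      exact (ad_zero hX hS M _).1 h2
  · ext y
    rw [LinearMap.mem_range, LinearMap.mem_ker]
    constructor
    · rintro ⟨w, rfl⟩
      show (Submodule.Quotient.mk ⟨fmul X 1 (A w), pp_mul (M * S⁻¹) M 1 (inc_S hS M) _
        (ad_pp hX hS M w.1 _ (hA w))⟩ : HH M) = 0
      rw [hex_mk0, mem_PB]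
      refine ⟨0, fun x => ?_⟩
      show (1 * A w x - 0) * M.eq x ∈ X.O x
      rw [one_mul, sub_zero]
      exact (hA w x).1
    · intro hy
      obtain ⟨⟨a, ha⟩, rfl⟩ := Submodule.Quotient.mk_surjective _ y
      have h1 : (Submodule.Quotient.mk ⟨fmul X 1 a, pp_mul (M * S⁻¹) M 1 (inc_S hS M) _
        ha⟩ : HH M) = 0 := hy
      rw [hex_mk0, mem_PB] at h1
      obtain ⟨c, hc⟩ := h1
      obtain ⟨a', ha'⟩ : ∃ a' : X.P → K, a' = a - fun _ => c := ⟨_, rfl⟩
      have hc' : ∀ x, a' x * M.eq x ∈ X.O x := by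
        intro x
        have h2 : (1 * a x - c) * M.eq x ∈ X.O x := hc x
        rw [one_mul] at h2
        rw [ha']
        exact h2
      have had : Ad M z (X.rs z (a' z * M.eq z)) a' := by
        intro x
        refine ⟨hc' x, fun hzx => ?_⟩
        obtain ⟨U, hU, hxU, h2⟩ := ha x
        have h3 := h2 z (hzx.mem_open hU hxU)
        have h4 : (a' z - a' x) * M.eq z = (a z - a x) * (M * S⁻¹).eq z * S.eq z := by
          rw [mul_eq, inv_eq, ha']
          show (a z - c - (a x - c)) * M.eq z = _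
          have := S.ne z
          field_simp
          ring
        have h5 : X.rs z ((a' z - a' x) * M.eq z) = 0 := by
          rw [h4, rs_mul z h3 (hS.eff z)]
          have h6 : X.rs z (S.eq z) = 0 := by
            by_contra h7
            exact hS.nun z specializes_rfl ((rs_ne z (hS.eff z)).1 h7)
          rw [h6, mul_zero]
        have h8 : a' x * M.eq z ∈ X.O z := hex_mem hX M hzx (hc' x)
        have h9 : (a' z - a' x) * M.eq z ∈ X.O z := by
          rw [sub_mul]
          exact (X.O z).sub_mem (hc' z) h8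
        have h10 : a' z * M.eq z = (a' z - a' x) * M.eq z + a' x * M.eq z := by ring
        rw [h10, rs_add z h9 h8, h5, zero_add]
      have hw : Sec (resD hX z M) 1 (X.rs z (a' z * M.eq z)) := by
        intro x
        rw [pow_one, resD_eq, ← (had x.1).2 x.2, ← hex_rs hX M x.2 (hex_mem hX M x.2 (hc' x.1))]
        exact rs_mem_subO hX x.2 (hc' x.1)
      refine ⟨⟨_, hw⟩, ?_⟩
      show (Submodule.Quotient.mk ⟨A ⟨_, hw⟩, ad_pp hX hS M _ _ (hA ⟨_, hw⟩)⟩ : HH (M * S⁻¹)) = _
      rw [hind ⟨_, hw⟩ a' had]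
      refine hex_mk _ _ _ ?_
      refine Submodule.mem_sup_right ⟨-c, ?_⟩
      funext x
      rw [ha']
      show a x - c - a x = -c
      ring

/-- the cokernel of the restriction is a subspace of the first cohomology group -/
theorem coker_le (hX : IsVar X) {z : X.P} {S : Cart X} (hS : SPr X z S) (M : Cart X)
    [FiniteDimensional k (secL (resD hX z M) 1)] [FiniteDimensional k (HH (M * S⁻¹))] :
    h0 (resD hX z M) 1 ≤ Module.finrank k (LinearMap.range (resS hX z M 1)) + h1 (M * S⁻¹) := by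
  obtain ⟨δ, h1, h2⟩ := exists_delta hX hS M
  have h3 := LinearMap.finrank_range_add_finrank_ker δ
  have h4 : Module.finrank k (LinearMap.range δ) ≤ Module.finrank k (HH (M * S⁻¹)) :=
    Submodule.finrank_le _
  rw [h1] at h3
  unfold h0 H24.TK.h1
  omega

/-- the form used in Lemma W: `M = B + S` -/
theorem coker_le' (hX : IsVar X) {z : X.P} {S : Cart X} (hS : SPr X z S) (B : Cart X)
    [FiniteDimensional k (secL (resD hX z (B * S)) 1)] [FiniteDimensional k (HH B)] :
    h0 (resD hX z (B * S)) 1 ≤ Module.finrank k (LinearMap.range (resS hX z (B * S) 1)) + h1 B := by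
  have h1' : B * S * S⁻¹ = B := mul_inv_cancel_right B S
  have h2 : FiniteDimensional k (HH (B * S * S⁻¹)) := by rw [h1']; infer_instance
  have h3 := coker_le hX hS (B * S)
  rwa [h1'] at h3

theorem pb_of_surj (hX : IsVar X) {z : X.P} {S : Cart X} (hS : SPr X z S) (M : Cart X)
    (hs : Function.Surjective (resS hX z M 1)) (a : X.P → K) (ha : a ∈ PP (M * S⁻¹)) (hb : a ∈ PB M) :
    a ∈ PB (M * S⁻¹) := by
  obtain ⟨δ, h1, h2⟩ := exists_delta hX hS M
  rw [LinearMap.range_eq_top.2 hs] at h1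
  have h3 : δ = 0 := LinearMap.ker_eq_top.1 h1
  have h4 : (Submodule.Quotient.mk ⟨a, ha⟩ : HH (M * S⁻¹)) ∈
      LinearMap.ker (hmul (M * S⁻¹) M 1 (inc_S hS M)) := by
    rw [LinearMap.mem_ker]
    show (Submodule.Quotient.mk ⟨fmul X 1 a, pp_mul (M * S⁻¹) M 1 (inc_S hS M) _
        ha⟩ : HH M) = 0
    rw [hex_mk0]
    have h5 : fmul X 1 a = a := by
      funext x
      exact one_mul _
    rwa [h5]
  rw [← h2, h3, LinearMap.range_zero, Submodule.mem_bot, hex_mk0] at h4
  exact h4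

theorem fd_step (hX : IsVar X) {z : X.P} {S : Cart X} (hS : SPr X z S) (M : Cart X)
    [FiniteDimensional k (secL (resD hX z M) 1)] [FiniteDimensional k (HH M)] :
    FiniteDimensional k (HH (M * S⁻¹)) := by
  obtain ⟨δ, h1, h2⟩ := exists_delta hX hS M
  obtain ⟨f, hf⟩ : ∃ f, f = hmul (M * S⁻¹) M 1 (inc_S hS M) := ⟨_, rfl⟩
  rw [← hf] at h2
  have h3 : Module.Finite k (LinearMap.ker f) := by
    rw [← h2]
    infer_instance
  have h4 : Module.Finite k (HH (M * S⁻¹) ⧸ LinearMap.ker f) :=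
    Module.Finite.equiv f.quotKerEquivRange.symm
  exact Module.Finite.of_submodule_quotient (LinearMap.ker f)

end Pool.Agent.H24.TK
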