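import Pool.Agent.H24.TK.HDef
import Pool.Agent.H24.TK.Fin

/-!
# THEOREM K (MP_e49dc9_ag), chapter T2: sections of large multiples of an ample divisor kill the first cohomology

[H24 TK HKil]
* `frame_sub`: `A` ample, `V x` an open neighbourhood of `x` for every `x`: there are `m ≥ 1`, a frame `v` of `A ^ m` and points
  `c i` with `nz (A ^ m) 1 (v i) ⊆ V (c i)`.  Proof: `exists_fr`: a frame `u` of `A ^ m₀`.  For `x` choose `j` with
  `x ∈ U = nz (A ^ m₀) 1 (u j)` (affine); `IsVar.bas`: `b ∈ sec U`, a unit at `x`, `Un (O y) b → y ∈ V x` for `y ∈ U`; `ext_sec` (`M = 1`):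
  `u j ^ N * b` is a section of `(A ^ m₀) ^ N`; `v := u j ^ (N + 1) * b`, a section of `(A ^ m₀) ^ (N + 1)` with
  `nz v = {y ∈ U | Un (O y) b}` (`un_mul_iff`: as in the proof of `amp_pt`, `H54/RV/B10.lean`), affine by `IsVar.basic`.  Finitely many of
  these sets cover (`IsVar.comp`); powers of the `v` (`un_pow_iff`) are sections of one multiple `A ^ m`; index by `Fin r`
  (`Finset.equivFin`), as in `exists_fr` (`Frm.lean`).
* `gen_pow`: `v` a frame of `A ^ m`, `m ≥ 1`, `q ≥ 1`: for `n ≥ N` every section `f` of `(n + m * q) A` is `∑ v i ^ q * b i` with `b i` sections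
  of `n A`.  Proof: `Fr.pow`: `v i ^ q` is a frame of `(A ^ m) ^ q = A ^ (m * q)`; `gen_le` for the frame `v ^ q` and `W = A ^ i`,
  `i < m * q`; write `n = m * q * n' + i`.
* `kill`: `a ∈ PP M`, `A` ample: for `n ≥ N₀` and all sections `f` of `n A`: `f a ∈ PB (M * A ^ n)`.  Proof: `V x` := the
  neighbourhood in `PP`; `frame_sub`: `m`, `v`, `c`; `α i := a (c i)`, so `(a y - α i) * M.eq y ∈ O y` for `y ∈ nz (v i)`.
  For `i`, `j` and `y ∈ nz (v i) ∩ nz (v j)`: `(α j - α i) * M.eq y ∈ O y`.  `denc` (`H54/RV/B3.lean`) on the affine set `nz (v j)` with the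
  function `v i / v j` (it is regular there and it is a unit at `y` iff `y ∈ nz (v i)`) and `b = α j - α i`: for `q ≥ q i j`,
  `(v i / v j) ^ q * (α j - α i) * M.eq y ∈ O y` for `y ∈ nz (v j)`; multiply by the unit `(v j * (A ^ m).eq y) ^ q`:
  `v i ^ q * (α j - α i) * (M.eq y * (A ^ m).eq y ^ q) ∈ O y`.  With `(a y - α j) * M.eq y ∈ O y` and the section `v i`:
  (*) `v i ^ q * (a y - α i) * (M.eq y * (A ^ m).eq y ^ q) ∈ O y` for all `y` (every `y` is in some `nz (v j)`) and all `i`,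
  `q := ` the maximum (or sum) of the `q i j`, plus `1`.
  `gen_pow` for this `q`: `f = ∑ v i ^ q * b i`; constant `c := ∑ b i * v i ^ q * α i`;
  `(f * a y - c) * (M * A ^ n).eq y = ∑ b i * (v i ^ q * (a y - α i)) * ..`, in `O y` by (*) and as `b i * (A.eq y) ^ (n - m q) ∈ O y`.
-/

set_option autoImplicit false

namespace Pool.Agent.H24.TK

open Pool.Agent.H54.RV Pool.Agent.H83.TU Pool.Agent.H83.TK

variable {k K : Type} [Field k] [Field K] [Algebra k K] {X : Mod k K}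

/-- a section of a multiple of `A` with affine non-vanishing set in a given neighbourhood -/
private theorem kil_pt (hX : IsVar X) {A : Cart X} (hA : Ample A) (V : Set X.P) (hV : IsOpen V) (x : X.P)
    (hx : x ∈ V) : ∃ n : ℕ, 1 ≤ n ∧ ∃ v : K, Sec A n v ∧ x ∈ nz A n v ∧ X.aff (nz A n v) ∧ nz A n v ⊆ V := by
  obtain ⟨n, hn, s, hs, hxs, haff⟩ := hA x
  obtain ⟨b, hb1, hb2, hb3⟩ := hX.bas (nz A n s) V x haff hV hxs hx
  obtain ⟨N, hN⟩ := ext_sec hX A 1 n s b hs (by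
    intro y hy
    rw [one_eq, mul_one]
    exact hb1 y hy)
  have hN' : ∀ j ≥ N, ∀ y, s ^ j * b * (A.eq y ^ n) ^ j ∈ X.O y := by
    intro j hj y
    have h1 := hN j hj y
    rwa [one_eq, mul_one] at h1
  have hset : nz A (n * (N + 1)) (s ^ (N + 1) * b) = {y | y ∈ nz A n s ∧ Un (X.O y) b} := by
    ext y
    show Un (X.O y) (s ^ (N + 1) * b * A.eq y ^ (n * (N + 1))) ↔ y ∈ nz A n s ∧ Un (X.O y) b
    have hA' : s * A.eq y ^ n ∈ X.O y := hs y
    have e1 : s ^ (N + 1) * b * A.eq y ^ (n * (N + 1)) =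
        (s * A.eq y ^ n) * (s ^ N * b * (A.eq y ^ n) ^ N) := by
      rw [pow_mul]
      ring
    have e2 : s ^ (N + 1) * b * A.eq y ^ (n * (N + 1)) = (s * A.eq y ^ n) ^ (N + 1) * b := by
      rw [pow_mul]
      ring
    constructor
    · intro h
      have h1 : Un (X.O y) (s * A.eq y ^ n) := by
        rw [e1, un_mul_iff hA' (hN' N le_rfl y)] at h
        exact h.1
      refine ⟨h1, ?_⟩
      rw [e2, un_mul_iff ((X.O y).pow_mem hA' _) (hb1 y h1)] at h
      exact h.2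
    · rintro ⟨h1, h2⟩
      rw [e2]
      exact un_mul (un_pow h1 _) h2
  refine ⟨n * (N + 1), Nat.mul_pos hn (Nat.succ_pos _), s ^ (N + 1) * b, ?_, ?_, ?_, ?_⟩
  · intro y
    have h1 := hN' (N + 1) (Nat.le_succ _) y
    rwa [← pow_mul] at h1
  · rw [hset]
    exact ⟨hxs, hb2⟩
  · rw [hset]
    exact hX.basic _ b haff hb1
  · rw [hset]
    rintro y ⟨h1, h2⟩
    exact hb3 y h1 h2

private theorem kil_sec (D : Cart X) (n e : ℕ) (s : K) (hs : Sec D n s) : Sec (D ^ (n * e)) 1 (s ^ e) := by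
  intro x
  rw [pow_one, pow_eq, pow_mul, ← mul_pow]
  exact (X.O x).pow_mem (hs x) e

private theorem kil_nz (D : Cart X) (n e : ℕ) (s : K) (hs : Sec D n s) (he : 1 ≤ e) :
    nz (D ^ (n * e)) 1 (s ^ e) = nz D n s := by
  ext x
  change Un (X.O x) (s ^ e * (D ^ (n * e)).eq x ^ 1) ↔ Un (X.O x) (s * D.eq x ^ n)
  rw [pow_one, pow_eq, pow_mul, ← mul_pow]
  exact un_pow_iff (hs x) he

theorem frame_sub (hX : IsVar X) {A : Cart X} (hA : Ample A) (V : X.P → Set X.P) (hV : ∀ x, IsOpen (V x))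
    (hx : ∀ x, x ∈ V x) : ∃ (m r : ℕ) (v : Fin r → K) (c : Fin r → X.P), 1 ≤ m ∧ Fr (A ^ m) r v ∧
      ∀ i, nz (A ^ m) 1 (v i) ⊆ V (c i) := by
  classical
  choose n hn s hs hxs haff hsub using fun x => kil_pt hX hA (V x) (hV x) x (hx x)
  have hcomp := hX.comp
  obtain ⟨T, -, hT⟩ := isCompact_univ.elim_nhds_subcover (fun x => nz A (n x) (s x))
    (fun x _ => (hX.op _ (haff x)).mem_nhds (hxs x))
  have he : ∀ x ∈ T, ∏ x ∈ T, n x = n x * ∏ x ∈ T.erase x, n x := fun x h =>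
    (Finset.mul_prod_erase T n h).symm
  have hp : ∀ x, 1 ≤ ∏ x ∈ T.erase x, n x := fun x => Finset.one_le_prod' fun y _ => hn y
  refine ⟨∏ x ∈ T, n x, T.card, fun j => s (T.equivFin.symm j).1 ^ ∏ x ∈ T.erase (T.equivFin.symm j).1, n x,
    fun j => (T.equivFin.symm j).1, Finset.one_le_prod' fun x _ => hn x, ⟨?_, ?_, ?_⟩, ?_⟩
  · intro j
    rw [he _ (T.equivFin.symm j).2]
    exact kil_sec A _ _ _ (hs _)
  · intro j
    rw [he _ (T.equivFin.symm j).2, kil_nz A _ _ _ (hs _) (hp _)]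
    exact haff _
  · intro x
    obtain ⟨y, hyT, hy⟩ := Set.mem_iUnion₂.1 (hT (Set.mem_univ x))
    refine ⟨T.equivFin ⟨y, hyT⟩, ?_⟩
    rw [he _ (T.equivFin.symm (T.equivFin ⟨y, hyT⟩)).2, kil_nz A _ _ _ (hs _) (hp _), Equiv.symm_apply_apply]
    exact hy
  · intro j
    rw [he _ (T.equivFin.symm j).2, kil_nz A _ _ _ (hs _) (hp _)]
    exact hsub _

theorem gen_pow [CharZero k] (hX : IsVar X) (hg : ∃ g, Gen X g) {A : Cart X} {m r : ℕ} (hm : 1 ≤ m) {v : Fin r → K}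
    (hF : Fr (A ^ m) r v) (q : ℕ) (hq : 1 ≤ q) : ∃ N, ∀ n ≥ N, ∀ f, Sec A (n + m * q) f →
      ∃ b : Fin r → K, (∀ i, Sec A n (b i)) ∧ f = ∑ i, v i ^ q * b i := by
  classical
  have hF' := hF.pow q hq
  choose n₀ hn₀ using fun i : ℕ => gen_le hX hg hF' (A ^ i)
  have hmq : 0 < m * q := Nat.mul_pos hm hq
  refine ⟨(m * q) * ∑ i ∈ Finset.range (m * q), n₀ i, fun n hn f hf => ?_⟩
  have hi : n % (m * q) < m * q := Nat.mod_lt _ hmq
  have h1 : n₀ (n % (m * q)) ≤ n / (m * q) := by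
    have h2 : n₀ (n % (m * q)) ≤ ∑ i ∈ Finset.range (m * q), n₀ i :=
      Finset.single_le_sum (f := n₀) (fun _ _ => Nat.zero_le _) (Finset.mem_range.2 hi)
    refine le_trans h2 ?_
    rw [Nat.le_div_iff_mul_le hmq, mul_comm]
    exact hn
  have hdm : n % (m * q) + (m * q) * (n / (m * q)) = n := Nat.mod_add_div n (m * q)
  have e1 : A ^ (n % (m * q)) * ((A ^ m) ^ q) ^ (n / (m * q) + 1) = A ^ (n + m * q) := by
    rw [← pow_mul, ← pow_mul, ← pow_add]
    congr 1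
    rw [← mul_assoc, mul_add (m * q), mul_one, ← add_assoc, hdm]
  have e2 : A ^ (n % (m * q)) * ((A ^ m) ^ q) ^ (n / (m * q)) = A ^ n := by
    rw [← pow_mul, ← pow_mul, ← pow_add, ← mul_assoc, hdm]
  obtain ⟨b, hb1, hb2⟩ := hn₀ (n % (m * q)) (n / (m * q)) h1 f (by
    rw [e1, sec_pow_iff]
    exact hf)
  refine ⟨b, fun i => ?_, hb2⟩
  have h3 := hb1 i
  rwa [e2, sec_pow_iff] at h3

/-- the pairs of charts -/
private theorem kil_pair (hX : IsVar X) (M B : Cart X) {v w : K} (hv : Sec B 1 v) (haff : X.aff (nz B 1 w))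
    (d : K) (hd : ∀ y, y ∈ nz B 1 v → y ∈ nz B 1 w → d * M.eq y ∈ X.O y) :
    ∃ N : ℕ, ∀ j ≥ N, ∀ y ∈ nz B 1 w, (v / w) ^ j * d * M.eq y ∈ X.O y := by
  have hquo : ∀ y ∈ nz B 1 w, v / w = v * B.eq y / (w * B.eq y) := by
    intro y hy
    have h1 := hy.1
    rw [pow_one] at h1
    have h2 : w ≠ 0 := left_ne_zero_of_mul h1
    have h3 := B.ne y
    field_simp
  refine denc hX M (nz B 1 w) haff (v / w) d ?_ ?_
  · intro y hy
    rw [hquo y hy, div_eq_mul_inv]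
    have h1 := hv y
    have h2 := hy.2.2
    rw [pow_one] at h1 h2
    exact (X.O y).mul_mem h1 h2
  · intro y hy hu
    refine hd y ?_ hy
    show Un (X.O y) (v * B.eq y ^ 1)
    have h1 : Un (X.O y) (w * B.eq y ^ 1) := hy
    rw [pow_one] at h1 ⊢
    rw [hquo y hy] at hu
    have h2 := un_mul hu h1
    rwa [div_mul_cancel₀ _ h1.1] at h2

theorem kill [CharZero k] (hX : IsVar X) (hg : ∃ g, Gen X g) {A : Cart X} (hA : Ample A) (M : Cart X)
    (a : X.P → K) (ha : a ∈ PP M) : ∃ N, ∀ n ≥ N, ∀ f, Sec A n f → fmul X f a ∈ PB (M * A ^ n) := by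
  classical
  choose V hV hxV hVa using ha
  obtain ⟨m, r, v, c, hm, hF, hsub⟩ := frame_sub hX hA V hV hxV
  -- the constants
  obtain ⟨α, hα⟩ : ∃ α : Fin r → K, α = fun i => a (c i) := ⟨_, rfl⟩
  have hαy : ∀ i, ∀ y ∈ nz (A ^ m) 1 (v i), (a y - α i) * M.eq y ∈ X.O y := by
    intro i y hy
    rw [hα]
    exact hVa (c i) y (hsub i hy)
  choose Q hQ using fun i j => kil_pair hX M (A ^ m) (hF.sec i) (hF.aff j) (α j - α i) (by
    intro y hy1 hy2
    have h1 : (α j - α i) * M.eq y = (a y - α i) * M.eq y - (a y - α j) * M.eq y := by ring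
    rw [h1]
    exact (X.O y).sub_mem (hαy i y hy1) (hαy j y hy2))
  obtain ⟨q, hq⟩ : ∃ q, q = ∑ i, ∑ j, Q i j + 1 := ⟨_, rfl⟩
  have hqQ : ∀ i j, Q i j ≤ q := by
    intro i j
    have h1 : Q i j ≤ ∑ j, Q i j :=
      Finset.single_le_sum (f := fun j => Q i j) (fun _ _ => Nat.zero_le _) (Finset.mem_univ j)
    have h2 : ∑ j, Q i j ≤ ∑ i, ∑ j, Q i j :=
      Finset.single_le_sum (f := fun i => ∑ j, Q i j) (fun _ _ => Nat.zero_le _) (Finset.mem_univ i)
    omega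
  have hq1 : 1 ≤ q := by omega
  have hstar : ∀ (i : Fin r) (y : X.P),
      v i ^ q * (a y - α i) * (M.eq y * (A ^ m).eq y ^ q) ∈ X.O y := by
    intro i y
    obtain ⟨j, hj⟩ := hF.cov y
    have h1 : v i * (A ^ m).eq y ∈ X.O y := by
      have := hF.sec i y
      rwa [pow_one] at this
    have h2 : Un (X.O y) (v j * (A ^ m).eq y) := by
      have h3 : Un (X.O y) (v j * (A ^ m).eq y ^ 1) := hj
      rwa [pow_one] at h3
    have h4 := hQ i j q (hqQ i j) y hj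
    have h5 : v i ^ q * (a y - α i) * (M.eq y * (A ^ m).eq y ^ q) =
        (v i * (A ^ m).eq y) ^ q * ((a y - α j) * M.eq y) +
          (v i / v j) ^ q * (α j - α i) * M.eq y * (v j * (A ^ m).eq y) ^ q := by
      have h6 : v j ≠ 0 := left_ne_zero_of_mul h2.1
      rw [div_pow]
      field_simp
      ring
    rw [h5]
    exact (X.O y).add_mem ((X.O y).mul_mem ((X.O y).pow_mem h1 q) (hαy j y hj))
      ((X.O y).mul_mem h4 ((X.O y).pow_mem h2.2.1 q))
  obtain ⟨N, hN⟩ := gen_pow hX hg hm hF q hq1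
  refine ⟨N + m * q, fun n hn f hf => ?_⟩
  obtain ⟨n', rfl⟩ : ∃ n', n = n' + m * q := ⟨n - m * q, by omega⟩
  obtain ⟨b, hb1, hb2⟩ := hN n' (by omega) f hf
  rw [mem_PB]
  refine ⟨∑ i, v i ^ q * b i * α i, fun y => ?_⟩
  show (f * a y - ∑ i, v i ^ q * b i * α i) * (M * A ^ (n' + m * q)).eq y ∈ X.O y
  have h6 : (f * a y - ∑ i, v i ^ q * b i * α i) * (M * A ^ (n' + m * q)).eq y =
      ∑ i, (b i * A.eq y ^ n') * (v i ^ q * (a y - α i) * (M.eq y * (A ^ m).eq y ^ q)) := by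
    rw [hb2, Finset.sum_mul, ← Finset.sum_sub_distrib, Finset.sum_mul]
    refine Finset.sum_congr rfl fun i _ => ?_
    rw [mul_eq, pow_eq, pow_eq, pow_add, pow_mul]
    ring
  rw [h6]
  exact (X.O y).sum_mem fun i _ => (X.O y).mul_mem (hb1 i y) (hstar i y)

end Pool.Agent.H24.TK
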