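import Pool.Agent.H24.TK.HEx
import Pool.Agent.H24.TK.HKil
import Pool.Agent.H24.TK.Ser

/-!
# THEOREM K (MP_e49dc9_ag), chapter T2: the first cohomology is finite dimensional

[H24 TK HFd]  `S` an ample prime divisor (`SPr X z S`), `M` any divisor.
* `h1_van`: `PP (M * S ^ n) ≤ PB (M * S ^ n)` for `n ≥ n₀` (that is `H¹ = 0`).  Proof: `ser_ample` (`A = S`, `W = M`): for
  `n ≥ n₁` the restriction `resS hX z (M * S ^ n) 1` is onto, so (`pb_of_surj`, `M * S ^ (n + 1) * S⁻¹ = M * S ^ n`):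
  `a ∈ PP (M * S ^ n)`, `a ∈ PB (M * S ^ (n + 1))` imply `a ∈ PB (M * S ^ n)`, for `n ≥ n₁` (`n + 1 ≥ n₁`).  For `a ∈ PP (M * S ^ n)` and `f = 1`
  (`Sec S N 1` as `S` is effective) `kill` gives `N` with `a ∈ PB (M * S ^ n * S ^ N)` (`fmul X 1 a = a`); descend: `a` is in
  `PP (M * S ^ (n + i))` for all `i ≥ 0` (`pp_mul` with `f = 1`), so in `PB (M * S ^ (n + i))` for `i = N, N - 1, .., 0`.
* `h1_fd`: `HH M` is finite dimensional.  Proof: `HH (M * S ^ n₀)` is `0`; `fd_step` `n₀` times, with `fd` for the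
  subvariety (`isVar_sub`, `⟨_, gen_sub⟩`, `res_ample`).  `M * S ^ (n + 1) * S⁻¹ = M * S ^ n` (`rw` with the equality of divisors).
-/

set_option autoImplicit false

namespace Pool.Agent.H24.TK

open Pool.Agent.H54.RV Pool.Agent.H83.TU Pool.Agent.H83.TK

variable {k K : Type} [Field k] [CharZero k] [Field K] [Algebra k K] {X : Mod k K}

theorem h1_van (hX : IsVar X) (hg : ∃ g, Gen X g) {z : X.P} {S : Cart X} (hS : SPr X z S) (hA : Ample S)
    (M : Cart X) : ∃ n₀, ∀ n ≥ n₀, PP (M * S ^ n) ≤ PB (M * S ^ n) := by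
  obtain ⟨n₁, hn₁⟩ := ser_ample hX hA z M
  refine ⟨n₁, fun n hn a ha => ?_⟩
  have hf1 : fmul X 1 a = a := by
    funext x
    exact one_mul _
  have hS1 : ∀ (i : ℕ) (x : X.P), S.eq x ^ i ∈ X.O x := fun i x => (X.O x).pow_mem (hS.eff x) i
  have hpp : ∀ i : ℕ, a ∈ PP (M * S ^ (n + i)) := by
    intro i
    have h1 := pp_mul (M * S ^ n) (M * S ^ (n + i)) 1 (fun x => by
      have h2 : (1 : K) * ((M * S ^ (n + i)).eq x / (M * S ^ n).eq x) = S.eq x ^ i := by
        rw [mul_eq, mul_eq, pow_eq, pow_eq, pow_add]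
        have := M.ne x
        have := S.ne x
        field_simp
      rw [h2]
      exact hS1 i x) a ha
    rwa [hf1] at h1
  have hdesc : ∀ i : ℕ, a ∈ PB (M * S ^ (n + i)) → a ∈ PB (M * S ^ n) := by
    intro i
    induction i with
    | zero => exact id
    | succ i ih =>
      intro h
      refine ih ?_
      have h1 : M * S ^ (n + (i + 1)) * S⁻¹ = M * S ^ (n + i) := by
        rw [← add_assoc, pow_succ, mul_assoc, mul_assoc, mul_inv_cancel, mul_one]
      have h2 := pb_of_surj hX hS (M * S ^ (n + (i + 1))) (hn₁ _ (by omega)) a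
        (by rw [h1]; exact hpp i) h
      rwa [h1] at h2
  obtain ⟨N, hN⟩ := kill hX hg hA (M * S ^ n) a ha
  refine hdesc N ?_
  have h3 := hN N le_rfl 1 (fun x => by
    rw [one_mul]
    exact hS1 N x)
  rwa [hf1, mul_assoc, ← pow_add] at h3

theorem h1_fd (hX : IsVar X) (hg : ∃ g, Gen X g) {z : X.P} {S : Cart X} (hS : SPr X z S) (hA : Ample S)
    (M : Cart X) : FiniteDimensional k (HH M) := by
  obtain ⟨n₀, hn⟩ := h1_van hX hg hS hA M
  have hstep : ∀ n : ℕ, FiniteDimensional k (HH (M * S ^ n)) → FiniteDimensional k (HH M) := by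
    intro n
    induction n with
    | zero =>
      intro h
      rwa [pow_zero, mul_one] at h
    | succ n ih =>
      intro h
      refine ih ?_
      have h2 : FiniteDimensional k (secL (resD hX z (M * S ^ (n + 1))) 1) :=
        fd (isVar_sub hX z) ⟨_, gen_sub hX z⟩ (res_ample hX z S hA) _
      have h3 := fd_step hX hS (M * S ^ (n + 1))
      have h1 : M * S ^ (n + 1) * S⁻¹ = M * S ^ n := by
        rw [pow_succ, mul_assoc, mul_assoc, mul_inv_cancel, mul_one]
      rwa [h1] at h3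
  refine hstep n₀ ?_
  have hsub : Subsingleton (HH (M * S ^ n₀)) := by
    rw [Submodule.Quotient.subsingleton_iff]
    rw [eq_top_iff]
    rintro ⟨a, ha⟩ _
    exact hn n₀ le_rfl ha
  infer_instance

/-- **the defect of the restriction to a prime member of an ample linear system** -/
theorem lemW_coker (hX : IsVar X) (hg : ∃ g, Gen X g) {z : X.P} {S : Cart X} (hS : SPr X z S) (hA : Ample S)
    (B : Cart X) : h0 (resD hX z (B * S)) 1 ≤ Module.finrank k (LinearMap.range (resS hX z (B * S) 1)) + h1 B := by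
  have h1 := h1_fd hX hg hS hA B
  have h2 : FiniteDimensional k (secL (resD hX z (B * S)) 1) :=
    fd (isVar_sub hX z) ⟨_, gen_sub hX z⟩ (res_ample hX z S hA) _
  exact coker_le' hX hS B

end Pool.Agent.H24.TK
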