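import Pool.Agent.H24.TK.Plc
import Pool.Agent.H24.TK.Frm

/-!
# THEOREM K (MP_e49dc9_ag), chapter T2: sections are integral over the forms in the frame

[H24 TK Int]  `AA k t`: the subalgebra of `K[T]` generated by the monomials `t j * T`.

`int_sec`: for a section `b` of `n H` the monomial `b T ^ n` is integral over `AA k t`.
Proof.  `L := FractionRing (Polynomial K)` (or `RatFunc K`), `φ : K[T] → L`, injective.
`s :=` the set of the `φ (C (algebraMap k K c))`, `c : k`, and of the `φ (monomial 1 (t j))`.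
CLAIM: `c := φ (monomial n b)` is in every valuation subring `V` of `L` which contains `s`.  Suppose `c ∉ V`; so `b ≠ 0`.
`W := V.comap (algebraMap K L)` (a valuation ring of `K`, contains `k`).  Let `S := Finset.univ.image fun j => t j ^ n / b`.
For `e = t j ^ n / b ≠ 0`: `e⁻¹ = b / t j ^ n ∉ W`, because otherwise
`c = φ (C (b / t j ^ n)) * φ (monomial 1 (t j)) ^ n ∈ V`.  Some `t j` is not `0` (`Fr.exists_ne`).
`K` is finitely generated: `genE`, `kap_fg` (at the generic point) and the isomorphism: `fg_of_gen` below.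
`exists_place`: a place `p` of `K` with `e⁻¹ ∉ p.R` for these `e`.  `x := cenK hX hg p`; by `Fr.cov` some
`t j * H.eq x ^ 1` is a unit `u` of `O x`; `u`, `u⁻¹` are in `p.R` (`cenK_le`), `b * H.eq x ^ n ∈ O x` is in `p.R`; so
`b / t j ^ n = (b * H.eq x ^ n) * (u⁻¹) ^ n ∈ p.R`: contradiction with `e = t j ^ n / b`, `e ≠ 0`.
So `c ∈ integralClosure (Subring.closure s) L` (`iInf_valuationSubring_superset` of Mathlib), the elements of
`Subring.closure s` are in the image of `AA k t` (`Subring.closure_le`), so `c` is integral over the image of `AA k t` under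
`φ`, and `monomial n b` is integral over `AA k t` as `φ` is injective (`isIntegral_algebraMap_iff` for the tower
`AA k t → K[T] → L`, or by hand: the coefficients of the monic polynomial lift).
`int_all`: a polynomial all of whose coefficients `p.coeff n` are sections of `n H` is integral over `AA k t`
(a finite sum of monomials, `Polynomial.as_sum_range`, `IsIntegral.sum`).
-/

set_option autoImplicit false

namespace Pool.Agent.H24.TK

open Pool.Agent.H54.RV Pool.Agent.H83.TU Pool.Agent.H83.TK Polynomial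

variable {k K : Type} [Field k] [Field K] [Algebra k K] {X : Mod k K}

variable (k) in
/-- the algebra of the forms in the frame -/
noncomputable def AA {r : ℕ} (t : Fin r → K) : Subalgebra k K[X] :=
  Algebra.adjoin k (Set.range fun j => (monomial 1 (t j) : K[X]))

/-- the function field is finitely generated -/
theorem fg_of_gen (hX : IsVar X) (hg : ∃ g, Gen X g) : (⊤ : IntermediateField k K).FG := by
  classical
  obtain ⟨g, hg⟩ := hg
  obtain ⟨e, -⟩ := genE hg
  obtain ⟨S, hS⟩ := kap_fg hX g
  refine ⟨S.image e.symm, ?_⟩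
  rw [eq_top_iff]
  intro a _
  have h1 : e a ∈ IntermediateField.adjoin k (S : Set (X.kap g)) := by
    rw [hS]
    exact IntermediateField.mem_top
  have h2 : a ∈ (IntermediateField.adjoin k (S : Set (X.kap g))).map (e.symm : X.kap g →ₐ[k] K) :=
    ⟨e a, h1, by simp⟩
  rw [IntermediateField.adjoin_map] at h2
  rw [Finset.coe_image]
  exact h2

private theorem int_lift {A L : Type} [CommRing A] [CommRing L] (ψ : A →+* L) (S : Subring L)
    (hS : ∀ a ∈ S, a ∈ ψ.range) (z : L) (hz : IsIntegral S z) : ψ.IsIntegralElem z := by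
  obtain ⟨P, hP, hPz⟩ := hz
  have h1 : P.map (algebraMap S L) ∈ Polynomial.lifts ψ := by
    rw [Polynomial.lifts_iff_coeff_lifts]
    intro n
    rw [Polynomial.coeff_map]
    exact hS _ (P.coeff n).2
  obtain ⟨q, hq1, -, hq3⟩ := Polynomial.lifts_and_natDegree_eq_and_monic h1 (hP.map _)
  refine ⟨q, hq3, ?_⟩
  rw [← Polynomial.eval_map, hq1, Polynomial.eval_map]
  exact hPz

theorem int_sec [CharZero k] (hX : IsVar X) (hg : ∃ g, Gen X g) {H : Cart X} {r : ℕ} {t : Fin r → K}
    (hF : Fr H r t) (n : ℕ) (b : K) (hb : Sec H n b) : IsIntegral (AA k t) (monomial n b : K[X]) := by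
  classical
  obtain ⟨L, hL, φ, hφ⟩ : ∃ (L : Type) (_ : Field L) (φ : K[X] →+* L), Function.Injective φ :=
    ⟨FractionRing K[X], inferInstance, algebraMap K[X] (FractionRing K[X]),
      IsFractionRing.injective K[X] _⟩
  let s : Set L := Set.range (fun c : k => φ (C (algebraMap k K c))) ∪
    Set.range (fun j => φ (monomial 1 (t j)))
  have hmem : ∀ V : ValuationSubring L, s ⊆ V.toSubring → φ (monomial n b) ∈ V := by
    intro V hV
    by_contra hc
    have hb0 : b ≠ 0 := by
      rintro rfl
      apply hc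
      rw [map_zero, map_zero]
      exact V.zero_mem
    let φK : K →+* L := φ.comp C
    have hW : ∀ c : k, algebraMap k K c ∈ V.comap φK := fun c =>
      ValuationSubring.mem_comap.2 (hV (Or.inl ⟨c, rfl⟩))
    have hS : ∀ e ∈ Finset.univ.image (fun j => t j ^ n / b), e ≠ 0 → e⁻¹ ∉ V.comap φK := by
      intro e he he0 he1
      obtain ⟨j, -, rfl⟩ := Finset.mem_image.1 he
      apply hc
      have h1 : t j ^ n ≠ 0 := fun h => he0 (by rw [h, zero_div])
      have h2 : φK (t j ^ n / b)⁻¹ ∈ V := ValuationSubring.mem_comap.1 he1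
      have h3 : φ (monomial 1 (t j)) ∈ V := hV (Or.inr ⟨j, rfl⟩)
      have h4 : φ (monomial n b) = φK (t j ^ n / b)⁻¹ * φ (monomial 1 (t j)) ^ n := by
        show _ = φ (C _) * _
        rw [← map_pow, ← map_mul, monomial_pow, one_mul, C_mul_monomial, inv_div,
          div_mul_cancel₀ _ h1]
      rw [h4]
      exact V.mul_mem _ _ h2 (pow_mem h3 n)
    have hne : ∃ e ∈ Finset.univ.image (fun j => t j ^ n / b), e ≠ 0 := by
      obtain ⟨j, hj⟩ := hF.exists_ne hX
      exact ⟨_, Finset.mem_image_of_mem _ (Finset.mem_univ j), div_ne_zero (pow_ne_zero n hj) hb0⟩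
    obtain ⟨p, hp⟩ := exists_place (fg_of_gen hX hg) (V.comap φK) hW _ hS hne
    obtain ⟨j, hj0, hj1, hj2⟩ := hF.cov (cenK hX hg p)
    rw [pow_one] at hj0 hj1 hj2
    have htj : t j ≠ 0 := fun h => hj0 (by rw [h, zero_mul])
    refine hp (t j ^ n / b) (Finset.mem_image_of_mem _ (Finset.mem_univ j))
      (div_ne_zero (pow_ne_zero n htj) hb0) ?_
    have h1 := cenK_le hX hg p _ (hb (cenK hX hg p))
    have h2 := cenK_le hX hg p _ hj2
    have h3 : (t j ^ n / b)⁻¹ = b * H.eq (cenK hX hg p) ^ n *
        (t j * H.eq (cenK hX hg p))⁻¹ ^ n := by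
      have h4 := H.ne (cenK hX hg p)
      rw [inv_div, inv_pow, mul_pow]
      field_simp
    rw [h3]
    exact p.R.mul_mem _ _ h1 (pow_mem h2 n)
  have hint : IsIntegral (Subring.closure s) (φ (monomial n b)) := by
    have h1 : φ (monomial n b) ∈ (⨅ V : {V : ValuationSubring L // s ⊆ V.toSubring},
        V.1.toSubring) := by
      rw [Subring.mem_iInf]
      intro V
      exact hmem V.1 V.2
    rw [iInf_valuationSubring_superset] at h1
    exact h1
  have hlift := int_lift (φ.comp (algebraMap (AA k t) K[X])) (Subring.closure s) (fun a ha => by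
    have h1 : Subring.closure s ≤ (φ.comp (algebraMap (AA k t) K[X])).range := by
      rw [Subring.closure_le]
      rintro x (⟨c, rfl⟩ | ⟨j, rfl⟩)
      · exact ⟨⟨algebraMap k K[X] c, (AA k t).algebraMap_mem c⟩, rfl⟩
      · exact ⟨⟨monomial 1 (t j), Algebra.subset_adjoin ⟨j, rfl⟩⟩, rfl⟩
    exact h1 ha) _ hint
  obtain ⟨q, hq1, hq2⟩ := hlift
  refine ⟨q, hq1, hφ ?_⟩
  rw [map_zero, Polynomial.hom_eval₂]
  exact hq2

theorem int_all [CharZero k] (hX : IsVar X) (hg : ∃ g, Gen X g) {H : Cart X} {r : ℕ} {t : Fin r → K}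
    (hF : Fr H r t) (p : K[X]) (hp : ∀ n, Sec H n (p.coeff n)) : IsIntegral (AA k t) p := by
  rw [Polynomial.as_sum_range p]
  exact IsIntegral.sum _ fun i _ => int_sec hX hg hF i _ (hp i)

end Pool.Agent.H24.TK
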