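import Pool.Agent.H24.TK.Noe

/-!
# THEOREM K (MP_e49dc9_ag), chapter T2: the ring of sections of the multiples of an ample divisor is noetherian

[H24 TK NoA]  `H` ample (no frame in degree `1`).  `exists_fr`: `m ≥ 1` and a frame `t` of `H ^ m`.
`σ := Polynomial.expand K m : K[X] →ₐ[K] K[X]` (`X ↦ X ^ m`).  `A' := (AA k t).map (σ.restrictScalars k)`, a finitely generated
`k`-algebra, `A' ≤ BB H` (generators: `expand (monomial 1 (t j)) = monomial m (t j)`, `t j` is a section of `m H`).
`int_amp`: `p ∈ BB H` is integral over `A'`: for a section `b` of `n H`, `b ^ m` is a section of `n (H ^ m)` (`Sec (H ^ m) n (b ^ m)`),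
so `monomial n (b ^ m)` is integral over `AA k t` (`int_sec`), so `σ` of it, `monomial (n * m) (b ^ m) = (monomial n b) ^ m`, is
integral over `A'` (`IsIntegral.map` / the polynomial mapped by `σ`), so `monomial n b` is (`IsIntegral.of_pow`); then sums.
`bb_noeth_amp`: `L := FractionRing K[X]` is algebraic over `A'` and finitely generated over `k`; proof as in `gM_fin` of
`Fin.lean` (the elements `C f`, `f ∈ K`, are quotients of elements of `BB H`: `f = a / c`, `a`, `c` sections of `N m H`; and
`X ^ m`, so `X`).  Or: `L` is algebraic over `AA k t` (from the proof of `gM_fin`) and over its image under `σ` as `L` is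
algebraic over `σ(L)` (`X` is a root of `Y ^ m - σ(X)`).  `int_noeth`: the integral closure of `A'` in `L` is a noetherian
`A'`-module, it contains `BB H`, so `BB H` is a noetherian `A'`-module and a noetherian ring.
`hom_acc_amp`: as `hom_acc`.
-/

set_option autoImplicit false

namespace Pool.Agent.H24.TK

open Pool.Agent.H54.RV Pool.Agent.H83.TU Pool.Agent.H83.TK Polynomial

variable {k K : Type} [Field k] [Field K] [Algebra k K] {X : Mod k K}

theorem bb_noeth_amp [CharZero k] (hX : IsVar X) (hg : ∃ g, Gen X g) {H : Cart X} (hH : Ample H) :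
    IsNoetherianRing (BB H) := by
  sorry

theorem hom_acc_amp [CharZero k] (hX : IsVar X) (hg : ∃ g, Gen X g) {H : Cart X} (hH : Ample H)
    (J : ℕ → HIdeal H) (hJ : ∀ i n, (J i).J n ≤ (J (i + 1)).J n) : ∃ i₀, ∀ i ≥ i₀, (J i).J = (J i₀).J := by
  sorry

end Pool.Agent.H24.TK
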