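import Pool.Agent.H54.RV.A2
import Pool.Agent.H24.TK.Alg

/-!
# THEOREM K (MP_e49dc9_ag), chapter T2: existence of places

[H24 TK Plc]  `K` a finitely generated field over `k`, characteristic `0`, `V` a valuation ring of `K` which contains
`k`, `S` a finite set of elements `e` with `e = 0` or `e⁻¹ ∉ V` (so all `e` are in the maximal ideal of `V`), not all
zero.  Then there is a DISCRETE valuation ring with the same property.

Proof.  (1) Choose `e₀ ∈ S`, `e₀ ≠ 0`, with `e / e₀ ∈ V` for all `e ∈ S` (`Finset.exists_max_image` for `V.valuation` on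
`S.filter (· ≠ 0)`; `V.valuation_le_one_iff`).
(2) `K = k(T)` with `T` finite.  Let `G` be the finite set of `e₀`, all `e / e₀`, and all `s` (if `s ∈ V`) or `s⁻¹` (if
`s ∉ V`), `s ∈ T`; `E := Algebra.adjoin k G`, finitely generated, all elements are in `V`.  `K` is algebraic over `E`
(every element of `K = k(T)` is a quotient of elements of `E`; or: `IntermediateField.adjoin` of the algebraic elements).
(3) `N := integralClosure E K`: a noetherian `E`-module (`int_noeth`), so a noetherian ring
(`isNoetherianRing_iff`, `isNoetherian_of_tower`), `IsFractionRing N K` (`IsIntegralClosure.isFractionRing_of_algebraic`),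
integrally closed (`isIntegrallyClosed_iff_isIntegrallyClosedIn K`, the elements of `K` which are integral over
`integralClosure E K` are in it: `integralClosure_idem` or `isIntegral_trans`), and all its elements are in `V` (`V` is
integrally closed in `K`: `IsIntegrallyClosed.isIntegral_iff` as in `inf_of_int` of `H20/TU/TRC.lean`).
(4) `e₀ ∈ N` is not a unit of `N` (`e₀⁻¹ ∉ V`).  Let `q` be a minimal prime over `e₀ N`
(`Ideal.exists_minimalPrimes_le`); height of `q` is at most `1`
(`Ideal.height_le_one_of_isPrincipal_of_mem_minimalPrimes`), so a nonzero prime ideal contained in `q` is `q` (see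
`min_one` in `H20/TU/FA7.lean`: reuse it).
(5) `D := Localization.subalgebra.ofField K q.primeCompl _` (or `Localization.AtPrime q` with its map to `K`):
local, noetherian (`IsLocalization.isNoetherianRing`), integrally closed (`IsIntegrallyClosed.of_localization...` /
`isIntegrallyClosed_of_isLocalization`), `Ring.DimensionLEOne` by (4) (primes of the localization correspond to the
primes contained in `q`), so a Dedekind domain with fraction field `K`; its maximal ideal is a
`HeightOneSpectrum`; `p := plP k P` (`H54/RV/A2.lean`), `plP_pos`, `plP_R`.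
(6) `e₀` is in the maximal ideal: `0 < p.ord e₀`; the elements of `N` are in `p.R`, so `0 ≤ p.ord (e / e₀)` and
`0 < p.ord e` for `e ∈ S`, `e ≠ 0` (`ord_mul`), so `p.ord e⁻¹ < 0` and `e⁻¹ ∉ p.R` (`ord_inv`, `ord_nonneg`).
-/

set_option autoImplicit false

namespace Pool.Agent.H24.TK

open Pool.Agent.H54.RV

private theorem plc_min {S : Type} [CommRing S] [IsDomain S] [IsNoetherianRing S] (z : S) (q : Ideal S)
    [q.IsPrime] (hq : q ∈ (Ideal.span {z}).minimalPrimes) (Q : Ideal S) [Q.IsPrime] (hQ0 : Q ≠ ⊥)
    (hle : Q ≤ q) : Q = q := by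
  by_contra hne
  have hlt := lt_of_le_of_ne hle hne
  have hpr : (Ideal.span {z}).IsPrincipal := ⟨⟨z, rfl⟩⟩
  have h1 : q.height ≤ 1 := Ideal.height_le_one_of_isPrincipal_of_mem_minimalPrimes _ _ hq
  have h2 := Ideal.height_add_one_le_of_lt_of_isPrime hlt
  have h3 : 1 ≤ Q.height :=
    Order.one_le_iff_ne_zero.2 (fun h => hQ0 (Ideal.height_eq_zero_iff_eq_bot.1 h))
  have h4 : (1 : ℕ∞) + 1 ≤ 1 := (add_le_add_left h3 1).trans (h2.trans h1)
  exact absurd h4 (by decide)

/-- a noetherian integrally closed domain with fraction field `K`, with a nonunit `e₀ ≠ 0`: a place of `K` where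
`e₀` is in the maximal ideal, whose valuation ring contains the domain -/
theorem place_of_normal {k N K : Type} [Field k] [CommRing N] [IsDomain N] [IsNoetherianRing N]
    [IsIntegrallyClosed N] [Field K] [Algebra k N] [Algebra k K] [Algebra N K] [IsScalarTower k N K]
    [IsFractionRing N K] (e₀ : N) (h0 : e₀ ≠ 0) (hu : ¬ IsUnit e₀) :
    ∃ p : Place k K, (∀ b : N, algebraMap N K b ∈ p.R) ∧ 0 < p.ord (algebraMap N K e₀) := by
  classical
  have htop : Ideal.span {e₀} ≠ ⊤ := by
    rw [ne_eq, Ideal.span_singleton_eq_top]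
    exact hu
  obtain ⟨M, hM, hMle⟩ := Ideal.exists_le_maximal _ htop
  have hMp : M.IsPrime := hM.isPrime
  obtain ⟨q, hq, -⟩ := Ideal.exists_minimalPrimes_le hMle
  have hqp : q.IsPrime := hq.1.1
  have he₀ : e₀ ∈ q := hq.1.2 (Ideal.mem_span_singleton_self e₀)
  let D := Localization.subalgebra.ofField K q.primeCompl q.primeCompl_le_nonZeroDivisors
  have hloc : IsLocalization q.primeCompl D :=
    Localization.subalgebra.isLocalization_ofField K q.primeCompl q.primeCompl_le_nonZeroDivisors
  have hlocAt : IsLocalization.AtPrime D q := hloc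
  have hnoeth : IsNoetherianRing D :=
    IsLocalization.isNoetherianRing q.primeCompl D inferInstance
  have hlocal : IsLocalRing D := IsLocalization.AtPrime.isLocalRing D q
  have hic : IsIntegrallyClosed D :=
    isIntegrallyClosed_of_isLocalization D q.primeCompl q.primeCompl_le_nonZeroDivisors
  have hfrac : IsFractionRing D K :=
    IsFractionRing.isFractionRing_of_isDomain_of_isLocalization q.primeCompl D K
  have hmem : ∀ b : N, algebraMap N D b ∈ IsLocalRing.maximalIdeal D ↔ b ∈ q := fun b =>
    IsLocalization.AtPrime.to_map_mem_maximal_iff D q b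
  have hinj : Function.Injective (algebraMap N D) :=
    IsLocalization.injective D q.primeCompl_le_nonZeroDivisors
  have hmax0 : IsLocalRing.maximalIdeal D ≠ ⊥ := by
    intro h
    have h1 := (hmem e₀).2 he₀
    rw [h, Ideal.mem_bot] at h1
    exact h0 (hinj (by rw [h1, map_zero]))
  have hdim : Ring.DimensionLEOne D := by
    refine ⟨fun {P} hP0 hP => ?_⟩
    have hQp : (P.comap (algebraMap N D)).IsPrime := Ideal.comap_isPrime _ P
    have hQle : P.comap (algebraMap N D) ≤ q := by
      intro b hb
      rw [← hmem]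
      exact IsLocalRing.le_maximalIdeal hP.ne_top hb
    have hmc : (P.comap (algebraMap N D)).map (algebraMap N D) = P :=
      IsLocalization.map_under q.primeCompl D P
    have hQ0 : P.comap (algebraMap N D) ≠ ⊥ := by
      intro h
      apply hP0
      rw [← hmc, h, Ideal.map_bot]
    have hQq := plc_min e₀ q hq (P.comap (algebraMap N D)) hQ0 hQle
    have hPm : P = IsLocalRing.maximalIdeal D := by
      apply le_antisymm (IsLocalRing.le_maximalIdeal hP.ne_top)
      have h1 : (IsLocalRing.maximalIdeal D) = Ideal.map (algebraMap N D) q :=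
        (IsLocalization.AtPrime.map_eq_maximalIdeal q D).symm
      rw [h1, ← hQq, hmc]
    rw [hPm]
    exact IsLocalRing.maximalIdeal.isMaximal D
  have hded : IsDedekindDomain D := {}
  let P : IsDedekindDomain.HeightOneSpectrum D :=
    ⟨IsLocalRing.maximalIdeal D, (IsLocalRing.maximalIdeal.isMaximal D).isPrime, hmax0⟩
  refine ⟨plP k (κ := K) P, fun b => ?_, ?_⟩
  · rw [plP_R, Valuation.mem_valuationSubring_iff, IsScalarTower.algebraMap_apply N D K]
    exact P.valuation_le_one _
  · rw [IsScalarTower.algebraMap_apply N D K, plP_pos P]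
    · exact (hmem e₀).2 he₀
    · intro h
      exact h0 (hinj (by rw [h, map_zero]))

theorem exists_place {k K : Type} [Field k] [CharZero k] [Field K] [Algebra k K]
    (hfg : (⊤ : IntermediateField k K).FG) (V : ValuationSubring K) (hV : ∀ c : k, algebraMap k K c ∈ V)
    (S : Finset K) (hS : ∀ e ∈ S, e ≠ 0 → e⁻¹ ∉ V) (hne : ∃ e ∈ S, e ≠ 0) :
    ∃ p : Place k K, ∀ e ∈ S, e ≠ 0 → e⁻¹ ∉ p.R := by
  classical
  obtain ⟨e₁, he₁, he₁0⟩ := hne
  obtain ⟨e₀, he₀, hmax⟩ := Finset.exists_max_image (S.filter (· ≠ 0)) V.valuation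
    ⟨e₁, Finset.mem_filter.2 ⟨he₁, he₁0⟩⟩
  obtain ⟨he₀S, h0⟩ := Finset.mem_filter.1 he₀
  have hvq : ∀ e ∈ S, e / e₀ ∈ V := by
    intro e he
    by_cases h : e = 0
    · rw [h, zero_div]; exact V.zero_mem
    · rw [← V.valuation_le_one_iff, map_div₀]
      have h1 := hmax e (Finset.mem_filter.2 ⟨he, h⟩)
      have h2 : V.valuation e₀ ≠ 0 := (Valuation.ne_zero_iff _).2 h0
      exact div_le_one_of_le₀ h1 zero_le
  obtain ⟨T, hT⟩ := hfg
  let gT : K → K := fun s => if s ∈ V then s else s⁻¹
  have hgT : ∀ s, gT s ∈ V := by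
    intro s
    by_cases h : s ∈ V
    · simp only [gT, if_pos h]; exact h
    · simp only [gT, if_neg h]
      exact (V.mem_or_inv_mem s).resolve_left h
  let G : Finset K := insert e₀ (S.image (· / e₀) ∪ T.image gT)
  have hGV : ∀ g ∈ G, g ∈ V := by
    intro g hg
    rcases Finset.mem_insert.1 hg with h | h
    · rw [h]
      exact (V.mem_or_inv_mem e₀).resolve_right (hS e₀ he₀S h0)
    · rcases Finset.mem_union.1 h with h | h
      · obtain ⟨e, he, rfl⟩ := Finset.mem_image.1 h
        exact hvq e he
      · obtain ⟨e, he, rfl⟩ := Finset.mem_image.1 h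
        exact hgT e
  let E : Subalgebra k K := Algebra.adjoin k (G : Set K)
  let VK : Subalgebra k K := { V.toSubring with algebraMap_mem' := hV }
  have hEV : E ≤ VK := Algebra.adjoin_le hGV
  have hft : Algebra.FiniteType k E :=
    (Subalgebra.fg_iff_finiteType _).1 (Subalgebra.fg_adjoin_finset G)
  have halg : Algebra.IsAlgebraic E K := by
    refine ⟨fun x => ?_⟩
    have hx : x ∈ IntermediateField.adjoin k (T : Set K) := by rw [hT]; trivial
    induction hx using IntermediateField.adjoin_induction with
    | mem s hs =>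
      have h1 : gT s ∈ E := Algebra.subset_adjoin (Finset.mem_coe.2 (Finset.mem_insert_of_mem
        (Finset.mem_union_right _ (Finset.mem_image_of_mem gT hs))))
      have h2 : IsAlgebraic E (gT s) := isAlgebraic_algebraMap (⟨gT s, h1⟩ : E)
      by_cases h : s ∈ V
      · simpa only [gT, if_pos h] using h2
      · simp only [gT, if_neg h] at h2
        simpa using h2.inv
    | algebraMap c =>
      exact isAlgebraic_algebraMap (⟨algebraMap k K c, E.algebraMap_mem c⟩ : E)
    | add x y _ _ hx hy => exact hx.add hy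
    | inv x _ hx => exact hx.inv
    | mul x y _ _ hx hy => exact hx.mul hy
  have hN := int_noeth (k := k) (A := E) (L := K) halg ⟨T, hT⟩
  have hNR : IsNoetherianRing (integralClosure E K) := by
    rw [isNoetherianRing_iff]
    exact isNoetherian_of_tower E hN
  have hfr : IsFractionRing (integralClosure E K) K :=
    integralClosure.isFractionRing_of_algebraic (A := E) (L := K)
      (fun x hx => Subtype.ext hx)
  have hic : IsIntegrallyClosed (integralClosure E K) := by
    rw [isIntegrallyClosed_iff_isIntegrallyClosedIn K]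
    infer_instance
  have hNV : ∀ x : integralClosure E K, (x : K) ∈ V := by
    intro x
    have h1 : IsIntegral E (x : K) := x.2
    obtain ⟨P, hP, hP0⟩ := h1
    let φ : E →+* V :=
      { toFun := fun x => ⟨x, hEV x.2⟩
        map_one' := Subtype.ext rfl
        map_mul' := fun _ _ => Subtype.ext rfl
        map_zero' := Subtype.ext rfl
        map_add' := fun _ _ => Subtype.ext rfl }
    have h2 : IsIntegral V (x : K) := by
      refine ⟨P.map φ, hP.map φ, ?_⟩
      rw [Polynomial.eval₂_map]
      exact hP0
    obtain ⟨y, hy⟩ := IsIntegrallyClosed.isIntegral_iff.1 h2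
    rw [← hy]
    exact y.2
  have hEN : ∀ x ∈ E, x ∈ integralClosure E K := fun x hx =>
    isIntegral_algebraMap (R := E) (A := K) (x := ⟨x, hx⟩)
  have he₀E : e₀ ∈ E := Algebra.subset_adjoin (Finset.mem_coe.2 (Finset.mem_insert_self _ _))
  obtain ⟨p, hp1, hp2⟩ := place_of_normal (k := k) (N := integralClosure E K) (K := K)
    ⟨e₀, hEN e₀ he₀E⟩ (fun h => h0 (congrArg Subtype.val h)) (by
      intro hu
      obtain ⟨c, hc⟩ := hu.exists_right_inv
      have hc' : e₀ * (c : K) = 1 := congrArg Subtype.val hc
      apply hS e₀ he₀S h0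
      rw [inv_eq_of_mul_eq_one_right hc']
      exact hNV c)
  have hp2' : 0 < p.ord e₀ := hp2
  refine ⟨p, fun e he hne hcon => ?_⟩
  have h1 : e / e₀ ∈ p.R := hp1 ⟨e / e₀, hEN _ (Algebra.subset_adjoin (Finset.mem_coe.2
    (Finset.mem_insert_of_mem (Finset.mem_union_left _ (Finset.mem_image_of_mem _ he)))))⟩
  have h2 := (ord_nonneg p _ (div_ne_zero hne h0)).2 h1
  have h3 := ord_mul p (e / e₀) e₀ (div_ne_zero hne h0) h0
  rw [div_mul_cancel₀ e h0] at h3
  have h4 := (ord_nonneg p _ (inv_ne_zero hne)).2 hcon
  rw [ord_inv] at h4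
  omega

end Pool.Agent.H24.TK
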